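import Pool.Agent.Shared.PolyTimeInt

/-!
The search for `n` disjoint good sets, and its polynomial running time.
-/

set_option autoImplicit false

namespace Pool.Agent.Lib.MP_5a17c4_lc.P

open Finset Pool.Agent.Shared.PolyTime

/-- All the lists of a given length with entries in `xs`. -/
def tup {β : Type} (xs : List β) : ℕ → List (List β)
  | 0 => [[]]
  | r + 1 => xs.flatMap fun x => (tup xs r).map fun c => x :: c

theorem mem_tup {β : Type} {xs : List β} :
    ∀ {r : ℕ} {c : List β}, c.length = r → (∀ x ∈ c, x ∈ xs) → c ∈ tup xs r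
  | 0, c, h, _ => by simpa [tup] using h
  | r + 1, [], h, _ => by simp at h
  | r + 1, x :: c, h, h' => by
    simp only [tup, List.mem_flatMap, List.mem_map]
    exact ⟨x, h' x (by simp), c, mem_tup (by simpa using h) fun y hy => h' y (by simp [hy]), rfl⟩

/-- The value of object `o` for agent `i`. -/
def ent (n : ℕ) (l : List ℕ) (o i : ℕ) : ℤ := (l.getD (o * n + i) 0 : ℕ)

/-- The determinant of the basis `c` with its first vector replaced by that of object `o`. -/
def dt (n : ℕ) (l c : List ℕ) (o : ℕ) : ℤ :=
  (Matrix.of fun j i : Fin n => ent n l (if (j : ℕ) = 0 then o else c.getD j 0) i).det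

/-- The first coordinate of object `o` in the basis `c`, times the squared determinant. -/
def av (n : ℕ) (l c : List ℕ) (o : ℕ) : ℤ := dt n l c o * dt n l c (c.getD 0 0)

/-- Membership in the candidate set. -/
def inT (n : ℕ) (l c : List ℕ) (o : ℕ) : Bool := decide (av n l c (c.getD n 0) ≤ av n l c o)

/-- The scaled deviation. -/
def dev (n : ℕ) (l c : List ℕ) (o : ℕ) : ℤ :=
  av n l c o - cond (inT n l c o) (av n l c (c.getD 0 0)) 0

/-- The asymmetric absolute value on the integers. -/
def phz (n : ℕ) (a : ℤ) : ℤ := if 0 ≤ a then a else -((n - 1) * a)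

/-- The test of a candidate. -/
def good (n : ℕ) (l c : List ℕ) : Bool :=
  decide (((List.range (l.length / n)).map fun o => phz n (dev n l c o)).sum <
    av n l c (c.getD 0 0)) && ((List.range (l.length / n)).countP (inT n l c) + 1) % n == 0

/-- The decision procedure. -/
def alg (n : ℕ) (l : List ℕ) : Bool :=
  !(tup (tup (List.range (l.length / n)) (n + 1)) n).any fun cs => (List.range n).all fun j =>
    good n l (cs.getD j []) && (List.range n).all fun j' => j == j' ||
      (List.range (l.length / n)).all fun o =>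
        !(inT n l (cs.getD j []) o && inT n l (cs.getD j' []) o)

variable {α : Type} [N487b59b3 α] {n : ℕ}

theorem tup_pt {β : Type} [N487b59b3 β] {xs : α → List β} (h : PT xs) :
    ∀ r, PT fun a => tup (xs a) r
  | 0 => PT.const _
  | r + 1 => PT.flatMap (h := fun a x => (tup (xs a) r).map fun c => x :: c) h
      (PT.map (h := fun (p : α × β) c => p.2 :: c) ((tup_pt h r).comp' PT.id'.fst) (by fun_prop))

theorem sum_pt {κ : Type} (s : Finset κ) {f : κ → α → ℤ} (h : ∀ k, PT (f k)) :
    PT fun a => ∑ k ∈ s, f k a := by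
  classical
  induction s using Finset.induction_on with
  | empty => exact PT.const 0
  | insert k s hk ih => simpa only [sum_insert hk] using (h k).intAdd ih

theorem prod_pt {κ : Type} (s : Finset κ) {f : κ → α → ℤ} (h : ∀ k, PT (f k)) :
    PT fun a => ∏ k ∈ s, f k a := by
  classical
  induction s using Finset.induction_on with
  | empty => exact PT.const 1
  | insert k s hk ih => simpa only [prod_insert hk] using (h k).intMul ih

variable {l c : α → List ℕ} {o : α → ℕ}

@[fun_prop] theorem dt_pt (hl : PT l) (hc : PT c) (ho : PT o) :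
    PT fun a => dt n (l a) (c a) (o a) := by
  simp only [dt, Matrix.det_apply', Matrix.of_apply]
  refine sum_pt _ fun σ => (PT.const _).intMul (prod_pt _ fun i => ?_)
  unfold ent
  split_ifs <;> fun_prop

@[fun_prop] theorem av_pt (hl : PT l) (hc : PT c) (ho : PT o) :
    PT fun a => av n (l a) (c a) (o a) := by
  unfold av
  fun_prop

@[fun_prop] theorem inT_pt (hl : PT l) (hc : PT c) (ho : PT o) :
    PT fun a => inT n (l a) (c a) (o a) :=
  PT.intLe (by fun_prop) (by fun_prop)

@[fun_prop] theorem dev_pt (hl : PT l) (hc : PT c) (ho : PT o) :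
    PT fun a => dev n (l a) (c a) (o a) := by
  unfold dev
  fun_prop

@[fun_prop] theorem phz_pt {f : α → ℤ} (hf : PT f) : PT fun a => phz n (f a) :=
  PT.ite (PT.intLe (PT.const _) hf) hf (by fun_prop)

@[fun_prop] theorem rng_pt (hl : PT l) : PT fun a => List.range ((l a).length / n) :=
  PT.range (by fun_prop) ((PB.length hl).mono fun _ => Nat.div_le_self _ _)

@[fun_prop] theorem good_pt (hl : PT l) (hc : PT c) : PT fun a => good n (l a) (c a) :=
  PT.and (PT.intLt (PT.intSum (PT.map (rng_pt hl) (by fun_prop))) (by fun_prop))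
    (PT.beq (PT.mod (PT.add (PT.countP (rng_pt hl) (by fun_prop)) (PT.const _)) (PT.const _))
      (PT.const _))

theorem alg_pt (n : ℕ) : PT (alg n) :=
  PT.not (PT.any (tup_pt (tup_pt (rng_pt PT.id') _) _) (PT.all (PT.const _)
    (PT.and (by fun_prop) (PT.all (PT.const _) (PT.or (by fun_prop)
      (PT.all (rng_pt (by fun_prop)) (by fun_prop)))))))

end Pool.Agent.Lib.MP_5a17c4_lc.P
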