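import Mathlib

/-!
Box polytopes `{y : 0 ≤ y ≤ u, ∑ y o • v o = b}`: ratio test, reduction to a vertex.
-/

set_option autoImplicit false
set_option linter.unusedSectionVars false

namespace Pool.Agent.Lib.MP_5a17c4_lc.P

open Finset Module

variable {ι : Type} [Fintype ι] [DecidableEq ι] {E : Type} [AddCommGroup E] [Module ℝ E]

/-- The total vector of a fractional bundle. -/
noncomputable def L (v : ι → E) : (ι → ℝ) →ₗ[ℝ] E := Fintype.linearCombination ℝ v

theorem L_apply (v : ι → E) (x : ι → ℝ) : L v x = ∑ o, x o • v o := by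
  simp [L, Fintype.linearCombination_apply]

theorem L_single (v : ι → E) (p : ι) (a : ℝ) : L v (Pi.single p a) = a • v p := by
  simp [L]

/-- `0 ≤ y ≤ u`. -/
def Box (u y : ι → ℝ) : Prop := ∀ o, 0 ≤ y o ∧ y o ≤ u o

open Classical in
/-- The coordinates strictly between their bounds. -/
noncomputable def cut (u y : ι → ℝ) : Finset ι := univ.filter fun o => 0 < y o ∧ y o < u o

omit [DecidableEq ι] in
theorem mem_cut {u y : ι → ℝ} {o : ι} : o ∈ cut u y ↔ 0 < y o ∧ y o < u o := by simp [cut]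

omit [DecidableEq ι] in
theorem Box.eq_of {u y : ι → ℝ} (h : Box u y) {o : ι} (ho : o ∉ cut u y) : y o = 0 ∨ y o = u o := by
  rw [mem_cut] at ho
  have := h o
  by_contra hc
  push Not at hc
  exact ho ⟨lt_of_le_of_ne this.1 hc.1.symm, lt_of_le_of_ne this.2 hc.2⟩

/-- The vectors indexed by `S` are linearly independent. -/
def Indep (v : ι → E) (S : Finset ι) : Prop :=
  ∀ n : ι → ℝ, (∀ o, o ∉ S → n o = 0) → L v n = 0 → n = 0

/-- Extension by zero. -/
def ext0 (S : Finset ι) : (S → ℝ) →ₗ[ℝ] (ι → ℝ) where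
  toFun a o := if h : o ∈ S then a ⟨o, h⟩ else 0
  map_add' a b := by funext o; by_cases h : o ∈ S <;> simp [h]
  map_smul' c a := by funext o; by_cases h : o ∈ S <;> simp [h]

theorem Indep.inj {v : ι → E} {S : Finset ι} (h : Indep v S) :
    Function.Injective (L v ∘ₗ ext0 S) := by
  rw [injective_iff_map_eq_zero]
  intro a ha
  have := h (ext0 S a) (fun o ho => by simp [ext0, ho]) ha
  funext s
  simpa [ext0] using congrFun this s

variable [FiniteDimensional ℝ E]

theorem Indep.card_le {v : ι → E} {S : Finset ι} (h : Indep v S) : S.card ≤ finrank ℝ E := by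
  simpa using LinearMap.finrank_le_finrank_of_injective h.inj

theorem Indep.span {v : ι → E} {S : Finset ι} (h : Indep v S) (hc : S.card = finrank ℝ E) (w : E) :
    ∃ n : ι → ℝ, (∀ o, o ∉ S → n o = 0) ∧ L v n = w := by
  have := (LinearMap.injective_iff_surjective_of_finrank_eq_finrank (by simpa using hc)).1 h.inj
  obtain ⟨a, ha⟩ := this w
  exact ⟨ext0 S a, fun o ho => by simp [ext0, ho], ha⟩

omit [FiniteDimensional ℝ E] in
theorem Indep.dual {v : ι → E} {S : Finset ι} (h : Indep v S) (w : ι → ℝ) :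
    ∃ μ : E →ₗ[ℝ] ℝ, ∀ s ∈ S, μ (v s) = w s := by
  obtain ⟨g, hg⟩ := LinearMap.exists_leftInverse_of_injective _ (LinearMap.ker_eq_bot.2 h.inj)
  refine ⟨Fintype.linearCombination ℝ (fun s : S => w s) ∘ₗ g, fun s hs => ?_⟩
  have h1 : v s = (L v ∘ₗ ext0 S) (Pi.single ⟨s, hs⟩ 1) := by
    have : ext0 S (Pi.single ⟨s, hs⟩ 1) = Pi.single s 1 := by
      funext o
      by_cases ho : o ∈ S
      · by_cases e : o = s
        · subst e; simp [ext0, ho]
        · simp [ext0, ho, e]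
      · have : o ≠ s := fun e => ho (e ▸ hs)
        simp [ext0, ho, this]
    rw [LinearMap.comp_apply, this, L_single, one_smul]
  have h2 := LinearMap.congr_fun hg (Pi.single ⟨s, hs⟩ 1)
  rw [LinearMap.comp_apply, ← h1] at h2
  simp [h2]

omit [Fintype ι] in
theorem ratio (B : Finset ι) (y u n : ι → ℝ) (hy : ∀ o ∈ B, 0 < y o ∧ y o < u o)
    (hn : ∃ o ∈ B, n o ≠ 0) : ∃ t, 0 < t ∧ (∀ o ∈ B, 0 ≤ y o + t * n o ∧ y o + t * n o ≤ u o) ∧
      ∃ o ∈ B, y o + t * n o = 0 ∨ y o + t * n o = u o := by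
  classical
  obtain ⟨o0, h0, hmin⟩ := exists_min_image (B.filter fun o => n o ≠ 0)
    (fun o => if 0 < n o then (u o - y o) / n o else y o / -n o)
    (by obtain ⟨o, h1, h2⟩ := hn; exact ⟨o, mem_filter.2 ⟨h1, h2⟩⟩)
  obtain ⟨h0, h0'⟩ := mem_filter.1 h0
  have hy0 := hy o0 h0
  set t := (if 0 < n o0 then (u o0 - y o0) / n o0 else y o0 / -n o0) with ht
  have htp : 0 < t := by
    rw [ht]
    split_ifs with h
    · exact div_pos (by linarith) h
    · exact div_pos hy0.1 (neg_pos.2 (lt_of_le_of_ne (not_lt.1 h) h0'))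
  refine ⟨t, htp, fun o ho => ?_, o0, h0, ?_⟩
  · have h1 := hy o ho
    rcases lt_trichotomy (n o) 0 with h | h | h
    · have := hmin o (mem_filter.2 ⟨ho, h.ne⟩)
      rw [if_neg (not_lt.2 h.le), le_div_iff₀ (neg_pos.2 h)] at this
      constructor <;> nlinarith
    · rw [h]; constructor <;> linarith
    · have := hmin o (mem_filter.2 ⟨ho, h.ne'⟩)
      rw [if_pos h, le_div_iff₀ h] at this
      constructor <;> nlinarith
  · rw [ht]
    split_ifs with h
    · right; field_simp; ring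
    · left; field_simp; ring

omit [Fintype ι] in
theorem hit (B : Finset ι) (a n : ι → ℝ) (ha : ∀ o ∈ B, 0 < a o ∧ a o < 1)
    (he : ¬ ∀ o ∈ B, 0 < a o + n o ∧ a o + n o < 1) : ∃ t, 0 < t ∧ t ≤ 1 ∧
      (∀ o ∈ B, 0 ≤ a o + t * n o ∧ a o + t * n o ≤ 1) ∧
      ∃ o ∈ B, a o + t * n o = 0 ∨ a o + t * n o = 1 := by
  have hn : ∃ o ∈ B, n o ≠ 0 := by
    by_contra hc
    push Not at hc
    exact he fun o ho => by rw [hc o ho, add_zero]; exact ha o ho
  obtain ⟨t, h1, h2, h3⟩ := ratio B a (fun _ => 1) n ha hn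
  refine ⟨t, h1, ?_, h2, h3⟩
  by_contra hc
  push Not at hc
  refine he fun o ho => ?_
  have h4 := ha o ho
  have h5 := h2 o ho
  constructor
  · by_contra h6
    nlinarith
  · by_contra h6
    nlinarith

omit [FiniteDimensional ℝ E] in
theorem reduce (v : ι → E) (u : ι → ℝ) (p : ι → ℝ) : ∀ (k : ℕ) (y : ι → ℝ), (cut u y).card = k →
    Box u y → ∃ y', Box u y' ∧ L v y' = L v y ∧ (∀ o, o ∉ cut u y → y' o = y o) ∧
      Indep v (cut u y') ∧ ∑ o, p o * y' o ≤ ∑ o, p o * y o := by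
  intro k
  induction k using Nat.strong_induction_on with
  | _ k ih =>
  intro y hk hy
  by_cases hi : Indep v (cut u y)
  · exact ⟨y, hy, rfl, fun _ _ => rfl, hi, le_rfl⟩
  have : ∃ n : ι → ℝ, (∀ o, o ∉ cut u y → n o = 0) ∧ L v n = 0 ∧ n ≠ 0 ∧ ∑ o, p o * n o ≤ 0 := by
    unfold Indep at hi
    push Not at hi
    obtain ⟨n, h1, h2, h3⟩ := hi
    rcases le_total (∑ o, p o * n o) 0 with h | h
    · exact ⟨n, h1, h2, h3, h⟩
    · refine ⟨-n, fun o ho => by simp [h1 o ho], by simp [h2], by simpa using h3, ?_⟩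
      simpa using h
  obtain ⟨n, h1, h2, h3, h4⟩ := this
  obtain ⟨t, ht, h5, o0, h6, h7⟩ := ratio (cut u y) y u n (fun o ho => mem_cut.1 ho) (by
    by_contra hc
    push Not at hc
    exact h3 (funext fun o => by
      by_cases ho : o ∈ cut u y
      exacts [hc o ho, h1 o ho]))
  have h8 : ∀ o, o ∉ cut u y → (y + t • n) o = y o := fun o ho => by simp [h1 o ho]
  have h9 : cut u (y + t • n) ⊆ cut u y := fun o ho => by
    by_contra hc
    rw [mem_cut, h8 o hc, ← mem_cut] at ho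
    exact hc ho
  have h10 : o0 ∉ cut u (y + t • n) := by
    rw [mem_cut]
    rintro ⟨a, b⟩
    simp only [Pi.add_apply, Pi.smul_apply, smul_eq_mul] at a b
    rcases h7 with h | h <;> linarith
  obtain ⟨y', a1, a2, a3, a4, a5⟩ := ih _ (hk ▸ card_lt_card ⟨h9, fun h => h10 (h h6)⟩)
    (y + t • n) rfl (fun o => by
      by_cases ho : o ∈ cut u y
      · exact h5 o ho
      · rw [h8 o ho]; exact hy o)
  refine ⟨y', a1, by rw [a2]; simp [h2], fun o ho => ?_, a4, a5.trans ?_⟩
  · rw [a3 o fun h => ho (h9 h), h8 o ho]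
  · have : ∑ o, p o * (y + t • n) o = ∑ o, p o * y o + t * ∑ o, p o * n o := by
      rw [mul_sum, ← sum_add_distrib]
      exact sum_congr rfl fun o _ => by simp; ring
    rw [this]
    nlinarith

omit [DecidableEq ι] in
theorem cut_sub {u y y' : ι → ℝ} (h : ∀ o, o ∉ cut u y → y' o = y o) : cut u y' ⊆ cut u y :=
  fun o ho => by
    by_contra hc
    rw [mem_cut, h o hc, ← mem_cut] at ho
    exact hc ho

end Pool.Agent.Lib.MP_5a17c4_lc.P
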