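import Pool.Agent.Lib.MP_5a17c4_lc.P.Pivot

/-!
The item which leaves when a given item enters does not depend on the vertex.
-/

set_option autoImplicit false
set_option linter.unusedSectionVars false

namespace Pool.Agent.Lib.MP_5a17c4_lc.P

open Finset Module Equiv

variable {ι : Type} [Fintype ι] [DecidableEq ι] {E : Type} [AddCommGroup E] [Module ℝ E]
  [FiniteDimensional ℝ E] {v : ι → E} {τ : E}

/-- At the vertex `x`, the item `u` leaves when `q` enters. -/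
def Rep (v : ι → E) (τ : E) (x : ι → ℝ) (q u : ι) : Prop := ∃ x', Step v τ x q u x'

theorem Pa.zero {x y : ι → ℝ} (h : Pa x y) {b : ι} (hb : b ∈ fr y) : x b = 0 :=
  (h b).resolve_right (mem_fr.1 hb).1.ne'

theorem Step.pa {x x' y : ι → ℝ} {p e : ι} (h : Step v τ x p e x') (hp : Pa x y) (h0 : y p = 0) :
    Pa x' y := fun o => by
  by_cases a : o ∈ fr x
  · exact Or.inr (hp.symm.zero a)
  · by_cases b : o = p
    · exact Or.inr (b ▸ h0)
    · rw [h.eq o a b]; exact hp o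

namespace Ctx

variable (c : Ctx v τ)
include c

theorem runiq {x : ι → ℝ} {q u u' : ι} (hx : Vx v τ x) (h : Rep v τ x q u) (h' : Rep v τ x q u') :
    u = u' := by
  obtain ⟨_, h⟩ := h
  obtain ⟨_, h'⟩ := h'
  exact (c.uniq hx h h').2

theorem pb {x y : ι → ℝ} {b u : ι} (hx : Vx v τ x) (hy : Vx v τ y) (hp : Pa x y) (hb : b ∈ fr y)
    (h : Rep v τ x b u) : u ∈ fr x ∧ Rep v τ y u b := by
  obtain ⟨x', h⟩ := h
  obtain ⟨h1, -, y', h2, -⟩ := c.trans hx hy hp hb h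
  exact ⟨h.mem.resolve_left h1, y', h2⟩

theorem pb_ex {x y : ι → ℝ} {b : ι} (hx : Vx v τ x) (hy : Vx v τ y) (hp : Pa x y)
    (hb : b ∈ fr y) : ∃ u ∈ fr x, Rep v τ x b u ∧ Rep v τ y u b := by
  obtain ⟨u, h⟩ := c.step hx (not_fr (Or.inl (hp.zero hb)))
  exact ⟨u, (c.pb hx hy hp hb h).1, h, (c.pb hx hy hp hb h).2⟩

theorem exit0 {x x' : ι → ℝ} {p e : ι} (hx : Vx v τ x) (h : Step v τ x p e x') (h0 : x p = 0)
    (he : e ≠ p) : x' e = 0 := by
  obtain ⟨y, hy, hp, h1⟩ := c.partner hx p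
  by_cases a : p ∈ fr y
  · exact (c.trans hx hy hp a h).2.1
  have h2 : y p = 0 := (hy.box.int a).resolve_right h1.ne
  have h3 := h.pa hp h2
  have h4 : p ∈ fr x' := (h.mem_iff hx).2 ⟨he.symm, Or.inl rfl⟩
  have he' := h.mem.resolve_left he
  obtain ⟨b, hb, -, z, hz⟩ := c.pb_ex hy h.vx h3.symm h4
  have h5 := (c.trans h.vx hy h3 hb hz).2.1
  have h6 : b ≠ p := fun e => a (e ▸ hb)
  have h7 : b ∉ fr x := not_fr (Or.inl (hp.zero hb))
  have h8 : z e = x' e := hz.eq e h.exit fun e' => h7 (e' ▸ he')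
  have h9 : Step v τ x b e z := by
    refine ⟨hz.vx, h7, h.eq b h7 h6 ▸ hz.ne, fun o h1 h2 => ?_, Or.inr he', fun k => h.exit ?_⟩
    · by_cases k : o = p
      · rw [k, h5, h0]
      · rw [hz.eq o (fun k' => ((h.mem_iff hx).1 k').2.elim k h1) h2, h.eq o h1 k]
    · rw [mem_fr, ← h8, ← mem_fr]; exact k
  rw [← h8]
  exact (c.trans hx hy hp hb h9).2.1

theorem exit_val {x x' : ι → ℝ} {p e : ι} (hx : Vx v τ x) (h : Step v τ x p e x')
    (he : e ≠ p) : x' e = x p := by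
  rcases hx.box.int h.out with a | a
  · rw [a, c.exit0 hx h a he]
  · rcases h.vx.box.int h.exit with b | b
    · have := c.exit0 h.vx (h.rev hx) b he.symm
      rw [a] at this
      exact absurd this one_ne_zero
    · rw [a, b]

theorem common {x x' y : ι → ℝ} {p e q u : ι} (hx : Vx v τ x) (h : Step v τ x p e x')
    (hy : Vx v τ y) (hp : Pa x y) (h0 : y p = 0) (hq : q ∈ fr y) (hr : Rep v τ x q u) :
    Rep v τ x' q (swap e p u) := by
  obtain ⟨h1, h2⟩ := c.pb hx hy hp hq hr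
  have h3 := h.pa hp h0
  by_cases a : u ∈ fr x'
  · rw [swap_apply_of_ne_of_ne (fun e' : u = e => h.exit (e' ▸ a))
      (fun e' : u = p => h.out (e' ▸ h1))]
    exact (c.pb hy h.vx h3.symm a h2).2
  · have h4 : u = e := by
      by_contra k
      exact a ((h.mem_iff hx).2 ⟨k, Or.inr h1⟩)
    obtain ⟨u', b1, b2, b3⟩ := c.pb_ex h.vx hy h3 hq
    rcases ((h.mem_iff hx).1 b1).2 with k | k
    · rw [h4, swap_apply_left, ← k]; exact b2
    · exact absurd (c.runiq hx hr (c.pb hy hx hp.symm k b3).2 ▸ b1) a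

theorem mono_aux {x x' z z' : ι → ℝ} {p s q u u' : ι} (hx : Vx v τ x) (h : Step v τ x p s x')
    (hp : x p = 0) (hs : s ≠ p) (hq : x q = 0) (hqp : q ≠ p) (hz : Step v τ x q u z) (hu : u ≠ q)
    (hus : u ≠ s) (hz' : Step v τ x' q u' z') (hu' : u' ≠ q) (hup : u' ≠ p) (hne : u' ≠ u) :
    x u / x' u < x u' / x' u' := by
  have s1 := h.mem.resolve_left hs
  have u1 := hz.mem.resolve_left hu
  have u2 := hz'.mem.resolve_left hu'
  have u3 := (h.mem_iff hx).1 u2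
  have u4 := u3.2.resolve_left hup
  have q1 : x' q = 0 := (h.eq q hz.out hqp).trans hq
  have sq : s ≠ q := fun e => hz.out (e ▸ s1)
  have P1 := mem_fr.1 ((h.mem_iff hx).2 ⟨hs.symm, Or.inl rfl⟩)
  have Z1 := mem_fr.1 ((hz.mem_iff hx).2 ⟨hu.symm, Or.inl rfl⟩)
  have P2 := mem_fr.1 ((hz'.mem_iff h.vx).2 ⟨hup.symm, Or.inr (mem_fr.2 P1)⟩)
  have Z2 := mem_fr.1 ((hz'.mem_iff h.vx).2 ⟨hu'.symm, Or.inl rfl⟩)
  set β := z' p / x' p with hβ
  set γ := z' q / z q with hγ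
  have β0 : 0 < β := div_pos P2.1 P1.1
  have γ0 : 0 < γ := div_pos Z2.1 Z1.1
  have w : z' - ((1 - β - γ) • x + β • x' + γ • z) = 0 := by
    refine c.indep hx _ (fun o ho => ?_) ?_
    · simp only [Pi.sub_apply, Pi.add_apply, Pi.smul_apply, smul_eq_mul]
      by_cases a : o = p
      · rw [a, hz.eq p h.out hqp.symm, hp, hβ]; field_simp [P1.1.ne']; ring
      · by_cases b : o = q
        · rw [b, q1, hq, hγ]; field_simp [Z1.1.ne']; ring
        · rw [hz'.eq o (fun k => ((h.mem_iff hx).1 k).2.elim a ho) b, h.eq o ho a, hz.eq o ho b]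
          ring
    · simp only [map_sub, map_add, map_smul, hx.val, h.vx.val, hz.vx.val, hz'.vx.val]
      module
  have w' : ∀ o, z' o = (1 - β - γ) * x o + β * x' o + γ * z o := fun o => by
    have := congrFun w o
    simp only [Pi.sub_apply, Pi.add_apply, Pi.smul_apply, smul_eq_mul, Pi.zero_apply] at this
    linarith
  have e1 := w' s
  have e2 := w' u
  have e3 := w' u'
  rw [hz'.eq s h.exit sq, c.exit0 hx h hp hs] at e1
  rw [c.exit0 hx hz hq hu] at e2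
  rw [c.exit0 h.vx hz' q1 hu'] at e3
  have f1 := (mem_fr.1 s1).1
  have f2 := (mem_fr.1 ((hz.mem_iff hx).2 ⟨hus.symm, Or.inr s1⟩)).1
  have f3 : u ∈ fr x' := (h.mem_iff hx).2 ⟨hus, Or.inr u1⟩
  have f4 := (mem_fr.1 ((hz'.mem_iff h.vx).2 ⟨hne.symm, Or.inr f3⟩)).1
  have f5 := (mem_fr.1 ((hz.mem_iff hx).2 ⟨hne, Or.inr u4⟩)).1
  have f6 := (mem_fr.1 f3).1
  have f7 := (mem_fr.1 u2).1
  have α0 : 0 < β + γ - 1 := by
    by_contra k
    nlinarith [mul_pos γ0 f2]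
  calc x u / x' u < β / (β + γ - 1) := by rw [div_lt_div_iff₀ f6 α0]; linarith
    _ < x u' / x' u' := by rw [div_lt_div_iff₀ α0 f7]; nlinarith [mul_pos γ0 f5]

theorem mono {x x' y : ι → ℝ} {p s q u : ι} (hx : Vx v τ x) (h : Step v τ x p s x')
    (hy : Vx v τ y) (hp : Pa x y) (h0 : p ∈ fr y) (hq : q ∈ fr y) (hqp : q ≠ p)
    (hr : Rep v τ x q u) : Rep v τ x' q (swap s p u) := by
  classical
  obtain ⟨h1, -, y', h2, h3⟩ := c.trans hx hy hp h0 h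
  have ns : ∀ b u, b ∈ fr y → b ≠ p → Rep v τ x b u → u ≠ s := fun b u hb hbp hr e =>
    hbp (c.runiq hy (c.pb hx hy hp hb hr).2 (e ▸ ⟨_, h2⟩))
  have h4 := (c.pb hx hy hp hq hr).1
  rw [swap_apply_of_ne_of_ne (ns q u hq hqp hr) (fun e' : u = p => h.out (e' ▸ h4))]
  by_contra hc
  obtain ⟨u, hu, hmax⟩ := exists_max_image ((fr x).filter fun u =>
    ∃ b ∈ fr y, b ≠ p ∧ Rep v τ x b u ∧ ¬ Rep v τ x' b u) (fun u => x u / x' u)
    ⟨u, mem_filter.2 ⟨h4, q, hq, hqp, hr, hc⟩⟩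
  obtain ⟨u1, b, b1, b2, b3, b4⟩ := mem_filter.1 hu
  have b5 : b ∈ fr y' := (h2.mem_iff hy).2 ⟨b2, Or.inr b1⟩
  obtain ⟨u', d1, d2, d3⟩ := c.pb_ex h.vx h2.vx h3 b5
  have d4 : u' ≠ p := fun e => h2.out (c.runiq h2.vx (e ▸ d3) ⟨_, h2.rev hy⟩ ▸ b1)
  have d5 := (h.mem_iff hx).1 d1
  have d6 := d5.2.resolve_left d4
  have d7 : u' ≠ u := fun e => b4 (e ▸ d2)
  obtain ⟨z, hz⟩ := id b3
  obtain ⟨z', hz'⟩ := id d2
  have d8 := c.mono_aux hx h (hp.zero h0) h1 (hp.zero b1) b2 hz (fun e => hz.out (e ▸ u1))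
    (ns b u b1 b2 b3) hz' (fun e => hz'.out (e ▸ d1)) d4 d7
  obtain ⟨b', g1, g2, g3⟩ := c.pb_ex hy hx hp.symm d6
  have g4 : b' ≠ p := fun e => d5.1 (c.runiq hx (e ▸ g3) ⟨_, h⟩)
  have g5 : Rep v τ x' b' u' := by
    by_contra k
    exact absurd (hmax u' (mem_filter.2 ⟨d6, b', g1, g4, g3, k⟩)) (not_le.2 d8)
  have g6 := (c.pb h.vx h2.vx h3 ((h2.mem_iff hy).2 ⟨g4, Or.inr g1⟩) g5).2
  exact d7 (c.runiq hx (c.runiq h2.vx g6 d3 ▸ g3) b3)

theorem tri {x x' z : ι → ℝ} {p s q : ι} (hx : Vx v τ x) (h : Step v τ x p s x')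
    (hz : Step v τ x q s z) (hp : x p = 0) (hq : x q = 0) (hs : s ∈ fr x) (hqp : q ≠ p) :
    Step v τ x' q p z := by
  have sp : s ≠ p := fun e => h.out (e ▸ hs)
  have sq : s ≠ q := fun e => hz.out (e ▸ hs)
  refine ⟨hz.vx, fun k => ((h.mem_iff hx).1 k).2.elim hqp hz.out, h.eq q hz.out hqp ▸ hz.ne,
    fun o h1 h2 => ?_, Or.inr ((h.mem_iff hx).2 ⟨sp.symm, Or.inl rfl⟩),
    fun k => ((hz.mem_iff hx).1 k).2.elim hqp.symm h.out⟩
  by_cases a : o = s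
  · rw [a, c.exit0 hx h hp sp, c.exit0 hx hz hq sq]
  · rw [h.mem_iff hx] at h1
    push Not at h1
    rw [hz.eq o (h1 a).2 h2, h.eq o (h1 a).2 (h1 a).1]

theorem zero1 {x x' : ι → ℝ} {p e q u : ι} (hx : Vx v τ x) (h : Step v τ x p e x')
    (hq : x q = 0) (hqp : q ≠ p) (hr : Rep v τ x q u) (hu : u ≠ q) :
    Rep v τ x' q (swap e p u) := by
  obtain ⟨y, hy, hp, h0⟩ : ∃ y, Vx v τ y ∧ Pa x y ∧ q ∈ fr y := by
    obtain ⟨y, hy, hp, h1⟩ := c.partner hx q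
    by_cases a : q ∈ fr y
    · exact ⟨y, hy, hp, a⟩
    obtain ⟨z, hz⟩ := hr
    obtain ⟨b, b1, ⟨y', b2⟩, -⟩ := c.pb_ex hy hz.vx
      (hz.pa hp ((hy.box.int a).resolve_right h1.ne)).symm ((hz.mem_iff hx).2 ⟨hu.symm, Or.inl rfl⟩)
    exact ⟨y', b2.vx, (b2.pa hp.symm hq).symm,
      (b2.mem_iff hy).2 ⟨fun e => a (e ▸ b1), Or.inl rfl⟩⟩
  have easy : ∀ y, Vx v τ y → Pa x y → q ∈ fr y → y p < 1 → Rep v τ x' q (swap e p u) := by
    intro y hy hp h0 h1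
    by_cases a : p ∈ fr y
    · exact c.mono hx h hy hp a h0 hqp hr
    · exact c.common hx h hy hp ((hy.box.int a).resolve_right h1.ne) h0 hr
  rcases (hy.box p).2.eq_or_lt with h1 | h1
  swap
  · exact easy y hy hp h0 h1
  have h1 : y p = 1 := h1
  have h2 : x p = 0 := (hp p).resolve_right (h1 ▸ one_ne_zero)
  obtain ⟨b, y', h3⟩ := c.step hy (not_fr (Or.inr h1))
  have h4 := (h3.pa hp.symm h2).symm
  by_cases a : q = b
  swap
  · exact easy y' h3.vx h4 ((h3.mem_iff hy).2 ⟨a, Or.inr h0⟩)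
      (lt_of_le_of_ne (h3.vx.box p).2 (h1 ▸ h3.ne))
  subst a
  obtain ⟨u1, u2⟩ := c.pb hx hy hp h0 hr
  obtain ⟨b', b1, -, b3⟩ := c.pb_ex h3.vx hx h4.symm u1
  have b4 := (h3.mem_iff hy).1 b1
  rcases b4.2 with k | k
  · have : u = e := c.runiq hx (k ▸ b3) ⟨_, h⟩
    subst this
    obtain ⟨z, hz⟩ := hr
    rw [swap_apply_left]
    exact ⟨z, c.tri hx h hz h2 hq u1 hqp⟩
  · exact absurd (c.runiq hy (c.pb hx hy hp k b3).2 u2) b4.1

theorem zero {x x' : ι → ℝ} {p e q u : ι} (hx : Vx v τ x) (h : Step v τ x p e x')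
    (hq : x q = 0) (hqp : q ≠ p) (hr : Rep v τ x q u) : Rep v τ x' q (swap e p u) := by
  by_cases hu : u = q
  swap
  · exact c.zero1 hx h hq hqp hr hu
  subst hu
  have h1 : u ∉ fr x := not_fr (Or.inl hq)
  have h2 : x' u = 0 := (h.eq u h1 hqp).trans hq
  have h3 : u ≠ e := fun k => h.mem.elim (fun k' => hqp (k.trans k')) fun k' => h1 (k ▸ k')
  obtain ⟨u', hr'⟩ := c.step h.vx (not_fr (Or.inl h2))
  rw [swap_apply_of_ne_of_ne h3 hqp]
  by_cases a : u' = u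
  · exact a ▸ hr'
  · have := c.runiq hx (c.zero1 h.vx (h.rev hx) h2 h3 hr' a) hr
    rw [swap_apply_eq_iff, swap_apply_of_ne_of_ne hqp h3] at this
    exact absurd this a

theorem whole1 {x y : ι → ℝ} {q u : ι} (hx : Vx v τ x) (hy : Vx v τ y) (hp : Pa x y)
    (hq : x q = 1) (hr : Rep v τ x q u) :
    (u = q → Rep v τ y q q) ∧ (u ≠ q → ∃ b ∈ fr y, Rep v τ y q b ∧ Rep v τ x b u) := by
  obtain ⟨z, hz⟩ := hr
  have h0 : y q = 0 := (hp q).resolve_left (hq ▸ one_ne_zero)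
  have h1 := hz.pa hp h0
  refine ⟨?_, fun hu => ?_⟩
  · rintro rfl
    have h2 : z u = 0 := (hz.vx.box.int hz.exit).resolve_right (hq ▸ hz.ne)
    obtain ⟨b, y', h3⟩ := c.step hy (not_fr (Or.inl h0))
    by_cases a : u = b
    · exact ⟨y', a ▸ h3⟩
    · exact absurd (c.pb hz.vx h3.vx (h3.pa h1.symm h2).symm
        ((h3.mem_iff hy).2 ⟨a, Or.inl rfl⟩) ⟨_, hz.rev hx⟩).1 hz.exit
  · obtain ⟨b, b1, b2, b3⟩ := c.pb_ex hy hz.vx h1.symm ((hz.mem_iff hx).2 ⟨Ne.symm hu, Or.inl rfl⟩)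
    obtain ⟨u', d1, d2, d3⟩ := c.pb_ex hx hy hp b1
    refine ⟨b, b1, b2, ?_⟩
    by_cases a : u' = u
    · exact a ▸ d2
    · have := (c.pb hy hz.vx h1.symm ((hz.mem_iff hx).2 ⟨a, Or.inr d1⟩) d3).2
      exact absurd (c.runiq hz.vx this b3 ▸ d1) hz.out

theorem whole2 {x y : ι → ℝ} {q b : ι} (hx : Vx v τ x) (hy : Vx v τ y) (hp : Pa x y)
    (hq : x q = 1) (hr : Rep v τ y q b) :
    (b = q → Rep v τ x q q) ∧ (b ≠ q → ∀ u, Rep v τ x b u → Rep v τ x q u) := by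
  obtain ⟨u0, h0⟩ := c.step hx (not_fr (Or.inr hq))
  obtain ⟨h1, h2⟩ := c.whole1 hx hy hp hq h0
  by_cases a : u0 = q
  · exact ⟨fun _ => a ▸ h0, fun k => absurd (c.runiq hy hr (h1 a)) k⟩
  · obtain ⟨b', b1, b2, b3⟩ := h2 a
    obtain rfl := c.runiq hy hr b2
    refine ⟨fun k => ?_, fun _ u hu => c.runiq hx b3 hu ▸ h0⟩
    obtain ⟨_, k'⟩ := hr
    exact absurd (k ▸ b1) k'.out

theorem inv {x x' : ι → ℝ} {p e q u : ι} (hx : Vx v τ x) (h : Step v τ x p e x')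
    (hqp : q ≠ p) (hr : Rep v τ x q u) : Rep v τ x' q (swap e p u) := by
  have h1 : q ∉ fr x := by obtain ⟨_, k⟩ := hr; exact k.out
  rcases hx.box.int h1 with hq | hq
  · exact c.zero hx h hq hqp hr
  have h2 : x' q = 1 := (h.eq q h1 hqp).trans hq
  have h3 : q ≠ e := fun k => h.mem.elim (fun k' => hqp (k.trans k')) fun k' => h1 (k ▸ k')
  obtain ⟨y, hy, hp, h4⟩ := c.partner hx p
  have h0 : y q = 0 := (hp q).resolve_left (hq ▸ one_ne_zero)
  obtain ⟨w1, w2⟩ := c.whole1 hx hy hp hq hr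
  by_cases a : p ∈ fr y
  · obtain ⟨-, -, y', b1, b2⟩ := c.trans hx hy hp a h
    by_cases k : u = q
    · have := c.zero hy b1 h0 h3 (w1 k)
      rw [swap_apply_of_ne_of_ne hqp h3] at this
      rw [k, swap_apply_of_ne_of_ne h3 hqp]
      exact (c.whole2 h.vx b1.vx b2 h2 this).1 rfl
    · obtain ⟨b, d1, d2, d3⟩ := w2 k
      have := c.zero hy b1 h0 h3 d2
      by_cases k' : b = p
      · subst k'
        rw [swap_apply_left] at this
        rw [c.runiq hx d3 ⟨_, h⟩, swap_apply_left]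
        exact (c.whole2 h.vx b1.vx b2 h2 this).2 h3.symm _ ⟨_, h.rev hx⟩
      · rw [swap_apply_of_ne_of_ne k' (fun e' : b = e => b1.out (e' ▸ d1))] at this
        exact (c.whole2 h.vx b1.vx b2 h2 this).2 (fun e' => not_fr (Or.inl h0) (e' ▸ d1)) _
          (c.zero hx h (hp.zero d1) k' d3)
  · have b2 := h.pa hp ((hy.box.int a).resolve_right h4.ne)
    by_cases k : u = q
    · rw [k, swap_apply_of_ne_of_ne h3 hqp]
      exact (c.whole2 h.vx hy b2 h2 (w1 k)).1 rfl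
    · obtain ⟨b, d1, d2, d3⟩ := w2 k
      exact (c.whole2 h.vx hy b2 h2 d2).2 (fun e' => not_fr (Or.inl h0) (e' ▸ d1)) _
        (c.zero hx h (hp.zero d1) (fun e' => a (e' ▸ d1)) d3)

end Ctx

end Pool.Agent.Lib.MP_5a17c4_lc.P
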