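import Pool.Agent.Lib.MP_5a17c4_lc.P.Cls

/-!
The classes of items are the same at all vertices; optimal vertices and their dual functionals.
-/

set_option autoImplicit false
set_option linter.unusedSectionVars false

namespace Pool.Agent.Lib.MP_5a17c4_lc.P

open Finset Module Equiv

variable {ι : Type} [Fintype ι] [DecidableEq ι] {E : Type} [AddCommGroup E] [Module ℝ E]
  [FiniteDimensional ℝ E] {v : ι → E} {τ : E}

open Classical in
/-- `T` is the class of a basic item of the vertex `x`, and `n` items of `T` are whole in `x`. -/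
def Lab (v : ι → E) (τ : E) (T : Finset ι) (n : ℕ) (x : ι → ℝ) : Prop :=
  ∃ s ∈ fr x, (∀ q, q ∈ T ↔ q = s ∨ Rep v τ x q s) ∧ (T.filter fun q => x q = 1).card = n

theorem Rep.out {x : ι → ℝ} {q u : ι} (h : Rep v τ x q u) : q ∉ fr x := by
  obtain ⟨_, h⟩ := h
  exact h.out

theorem map_L (μ : E →ₗ[ℝ] ℝ) (x : ι → ℝ) : μ (L v x) = ∑ o, x o * μ (v o) := by
  simp [L_apply]

namespace Ctx

variable (c : Ctx v τ)
include c

theorem cls_step {x x' : ι → ℝ} {p e s q : ι} (hx : Vx v τ x) (h : Step v τ x p e x')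
    (hs : s ∈ fr x) (hq : q = s ∨ Rep v τ x q s) :
    q = swap e p s ∨ Rep v τ x' q (swap e p s) := by
  rcases hq with rfl | hq
  · by_cases a : q = e
    · rw [a, swap_apply_left]; exact Or.inr ⟨_, h.rev hx⟩
    · exact Or.inl (swap_apply_of_ne_of_ne a fun e' : q = p => h.out (e' ▸ hs)).symm
  · by_cases a : q = p
    · have : s = e := c.runiq hx (a ▸ hq) ⟨_, h⟩
      rw [this, swap_apply_left]; exact Or.inl a
    · exact Or.inr (c.inv hx h a hq)

theorem lab_step {x x' : ι → ℝ} {p e : ι} {T : Finset ι} {n : ℕ} (hx : Vx v τ x)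
    (h : Step v τ x p e x') (hl : Lab v τ T n x) : Lab v τ T n x' := by
  classical
  obtain ⟨s, hs, h1, h2⟩ := hl
  have sp : s ≠ p := fun e' => h.out (e' ▸ hs)
  have h3 : swap e p s ∈ fr x' := by
    rw [h.mem_iff hx]
    by_cases a : s = e
    · rw [a, swap_apply_left]; exact ⟨fun k => sp (a.trans k.symm), Or.inl rfl⟩
    · rw [swap_apply_of_ne_of_ne a sp]; exact ⟨a, Or.inr hs⟩
  refine ⟨_, h3, fun q => (h1 q).trans ⟨c.cls_step hx h hs, fun k => ?_⟩, ?_⟩
  · simpa [swap_comm p e] using c.cls_step h.vx (h.rev hx) h3 k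
  rw [← h2]
  refine (card_equiv (swap e p) fun q => ?_).symm
  have hpT : p ∈ T ↔ s = e := by
    rw [h1]
    exact ⟨fun k => c.runiq hx (k.resolve_left sp.symm) ⟨_, h⟩, fun k => Or.inr (k ▸ ⟨_, h⟩)⟩
  simp only [mem_filter]
  by_cases a : q = p
  · subst a
    rw [swap_apply_right]
    by_cases b : e = q
    · subst b
      have : e ∉ T := fun k => sp (hpT.1 k)
      simp [this]
    · rw [c.exit_val hx h b, hpT, h1]
      refine and_congr_left fun _ => ⟨fun k => Or.inl k.symm, fun k => ?_⟩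
      exact (k.resolve_right fun k' => k'.out (h.mem.resolve_left b)).symm
  · by_cases b : q = e
    · subst b
      rw [swap_apply_left]
      have b1 := (mem_fr.1 (h.mem.resolve_left a)).2.ne
      have b2 := (mem_fr.1 ((h.mem_iff hx).2 ⟨Ne.symm a, Or.inl rfl⟩)).2.ne
      simp [b1, b2]
    · rw [swap_apply_of_ne_of_ne b a]
      by_cases d : q ∈ fr x
      · have b1 := (mem_fr.1 d).2.ne
        have b2 := (mem_fr.1 ((h.mem_iff hx).2 ⟨b, Or.inr d⟩)).2.ne
        simp [b1, b2]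
      · rw [h.eq q d a]

theorem eq_of {x z : ι → ℝ} (hx : L v x = τ) (hz : Vx v τ z) (h : ∀ o, o ∉ fr z → x o = z o) :
    x = z :=
  sub_eq_zero.1 (c.indep hz _ (fun o ho => by simp [h o ho]) (by simp [hx, hz.val]))

theorem finite : {x | Vx v τ x}.Finite := by
  classical
  refine Set.Finite.of_finite_image (f := fun x => (fr x, univ.filter fun o => x o = 1))
    (Set.toFinite _) fun x hx z hz h => ?_
  obtain ⟨h1, h2⟩ := Prod.mk.inj h
  refine c.eq_of hx.val hz fun o ho => ?_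
  have h3 : x o = 1 ↔ z o = 1 := by simpa using Finset.ext_iff.1 h2 o
  rcases hz.box.int ho with a | a
  · rw [a]
    refine (hx.box.int (h1 ▸ ho)).resolve_right fun b => ?_
    rw [h3.1 b] at a
    exact one_ne_zero a
  · rw [a, h3.2 a]

theorem opt (w : ι → ℝ) {P : (ι → ℝ) → Prop} {x0 : ι → ℝ} (h0 : Vx v τ x0) (h1 : P x0)
    (hP : ∀ x p e x', Vx v τ x → Step v τ x p e x' → P x → P x') :
    ∃ x, Vx v τ x ∧ P x ∧ ∃ μ : E →ₗ[ℝ] ℝ, (∀ s ∈ fr x, μ (v s) = w s) ∧
      (∀ p, x p = 0 → w p ≤ μ (v p)) ∧ ∀ p, x p = 1 → μ (v p) ≤ w p := by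
  obtain ⟨x, ⟨hx, hx'⟩, hmax⟩ := Set.exists_max_image {x | Vx v τ x ∧ P x}
    (fun x => ∑ o, x o * w o) (c.finite.subset fun x hx => hx.1) ⟨x0, h0, h1⟩
  obtain ⟨μ, hμ⟩ := (c.indep hx).dual w
  have key : ∀ p, p ∉ fr x → ∃ a, a ≠ x p ∧ 0 ≤ a ∧ a ≤ 1 ∧ (a - x p) * (w p - μ (v p)) ≤ 0 := by
    intro p hp
    obtain ⟨e, x', h⟩ := c.step hx hp
    refine ⟨x' p, h.ne, (h.vx.box p).1, (h.vx.box p).2, ?_⟩
    have a1 := hmax x' ⟨h.vx, hP x p e x' hx h hx'⟩
    have a2 := map_L (v := v) μ x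
    have a3 := map_L (v := v) μ x'
    rw [hx.val] at a2
    rw [h.vx.val] at a3
    have a4 : ∑ o, (x' o - x o) * (w o - μ (v o)) = (x' p - x p) * (w p - μ (v p)) := by
      refine sum_eq_single p (fun o _ ho => ?_) (by simp)
      by_cases a : o ∈ fr x
      · simp [hμ o a]
      · simp [h.eq o a ho]
    rw [← a4]
    simp only [sub_mul, mul_sub, sum_sub_distrib]
    linarith
  refine ⟨x, hx, hx', μ, hμ, fun p hp => ?_, fun p hp => ?_⟩
  · obtain ⟨a, a1, a2, -, a4⟩ := key p (not_fr (Or.inl hp))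
    rw [hp] at a1 a4
    have := lt_of_le_of_ne a2 a1.symm
    by_contra k
    nlinarith
  · obtain ⟨a, a1, -, a3, a4⟩ := key p (not_fr (Or.inr hp))
    rw [hp] at a1 a4
    have := lt_of_le_of_ne a3 a1
    by_contra k
    nlinarith

theorem conn {P : (ι → ℝ) → Prop} {x0 z : ι → ℝ} (h0 : Vx v τ x0) (h1 : P x0)
    (hP : ∀ x p e x', Vx v τ x → Step v τ x p e x' → P x → P x') (hz : Vx v τ z) : P z := by
  classical
  let w : ι → ℝ := fun o => if z o = 1 then 1 else if z o = 0 then -1 else 0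
  obtain ⟨x, hx, hx', μ, m1, m2, m3⟩ := c.opt w h0 h1 hP
  have a1 : ∑ o, (z o - x o) * (w o - μ (v o)) ≤ 0 := sum_nonpos fun o _ => by
    have := hz.box o
    simp only [Pi.one_apply] at this
    by_cases a : o ∈ fr x
    · simp [m1 o a]
    · rcases hx.box.int a with b | b
      · have := m2 o b
        rw [b]; nlinarith
      · have := m3 o b
        rw [b]; nlinarith
  have a2 := map_L (v := v) μ x
  have a3 := map_L (v := v) μ z
  rw [hx.val] at a2
  rw [hz.val] at a3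
  have a4 : ∑ o, (z o - x o) * w o ≤ 0 := by
    simp only [sub_mul, mul_sub, sum_sub_distrib] at a1 ⊢
    linarith
  have a5 : ∀ o ∈ (univ : Finset ι), 0 ≤ (z o - x o) * w o := fun o _ => by
    have := hx.box o
    simp only [Pi.one_apply, w] at this ⊢
    split_ifs with a b
    · rw [a]; linarith
    · rw [b]; linarith
    · simp
  have a6 := (sum_eq_zero_iff_of_nonneg a5).1 (le_antisymm a4 (sum_nonneg a5))
  refine c.eq_of hx.val hz (fun o ho => ?_) ▸ hx'
  have := a6 o (mem_univ o)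
  rcases hz.box.int ho with b | b <;> simp [w, b] at this <;> linarith

end Ctx

/-- The asymmetric absolute value. -/
noncomputable def phi (k : ℕ) (s : ℝ) : ℝ := max s (-((k - 1) * s))

/-- `T` is a good set, certified by the functional `μ`. -/
def Good (k : ℕ) (v : ι → E) (T : Finset ι) (μ : E →ₗ[ℝ] ℝ) : Prop :=
  k ∣ T.card + 1 ∧ ∑ o, phi k (μ (v o) - if o ∈ T then 1 else 0) < 1

theorem Ctx.good (c : Ctx v τ) {k n : ℕ} (hk : 1 ≤ k) (hsum : L v 1 = (k : ℝ) • τ) {T : Finset ι}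
    {x0 : ι → ℝ} (h0 : Vx v τ x0) (hl : Lab v τ T n x0) (hT : T.card + 1 = k * (n + 1)) :
    ∃ (S : Finset ι) (s : ι) (μ : E →ₗ[ℝ] ℝ), Indep v S ∧ S.card = finrank ℝ E ∧ s ∈ S ∧ s ∈ T ∧
      (∀ o ∈ S, μ (v o) = if o = s then 1 else 0) ∧ Good k v T μ := by
  classical
  obtain ⟨x, hx, ⟨s, hs, h1, h2⟩, μ, m1, m2, m3⟩ := c.opt (fun o => if o ∈ T then 1 else 0) h0 hl
    fun x p e x' hx h => c.lab_step hx h
  have h3 : ∀ o ∈ fr x, o ∈ T ↔ o = s := fun o ho =>
    (h1 o).trans ⟨fun k => k.resolve_right fun k' => k'.out ho, Or.inl⟩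
  refine ⟨fr x, s, μ, c.indep hx, hx.card, hs, (h3 s hs).2 rfl, fun o ho => by
    simp [m1 o ho, h3 o ho], ⟨_, hT⟩, ?_⟩
  have hk' : (0 : ℝ) ≤ k - 1 := by
    have : (1 : ℝ) ≤ k := by exact_mod_cast hk
    linarith
  have a1 : ∀ o, phi k (μ (v o) - if o ∈ T then 1 else 0) =
      (1 - k * x o) * (μ (v o) - if o ∈ T then 1 else 0) := fun o => by
    unfold phi
    by_cases a : o ∈ fr x
    · simp [m1 o a]
    · rcases hx.box.int a with b | b
      · have := m2 o b
        rw [b, max_eq_left (by nlinarith)]; ring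
      · have := m3 o b
        rw [b, max_eq_right (by nlinarith)]; ring
  have a2 := map_L (v := v) μ x
  have a3 := map_L (v := v) μ 1
  rw [hx.val] at a2
  rw [hsum, map_smul] at a3
  have a4 : ∑ o, x o * (if o ∈ T then 1 else 0) = n + x s := by
    have : ∀ o, x o * (if o ∈ T then 1 else 0) =
        (if o ∈ T.filter (fun q => x q = 1) then 1 else 0) + if o = s then x s else 0 := fun o => by
      by_cases a : o ∈ fr x
      · have := (mem_fr.1 a).2.ne
        by_cases b : o = s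
        · subst b; simp [(h3 o a).2 rfl, this]
        · simp [h3 o a, b]
      · have : o ≠ s := fun e => a (e ▸ hs)
        rcases hx.box.int a with b | b <;> simp [b, this]
    simp only [this, sum_add_distrib, sum_boole, sum_ite_eq', mem_univ, if_true]
    rw [filter_mem_eq_inter, univ_inter, h2]
  have a5 : ∑ o, (if o ∈ T then (1 : ℝ) else 0) = T.card := by simp
  have a6 : (T.card : ℝ) + 1 = k * (n + 1) := by exact_mod_cast hT
  have a7 := (mem_fr.1 hs).2
  have a8 : ∑ o, (1 - k * x o) * (μ (v o) - if o ∈ T then 1 else 0) =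
      ∑ o, μ (v o) - ∑ o, (if o ∈ T then (1 : ℝ) else 0) - k * ∑ o, x o * μ (v o) +
        k * ∑ o, x o * (if o ∈ T then 1 else 0) := by
    simp only [mul_sum, ← sum_sub_distrib, ← sum_add_distrib]
    exact sum_congr rfl fun o _ => by ring
  simp only [Pi.one_apply, one_mul, smul_eq_mul] at a3
  rw [sum_congr rfl fun o _ => a1 o, a8, a4, a5, ← a2, ← a3]
  nlinarith

end Pool.Agent.Lib.MP_5a17c4_lc.P
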