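import Pool.Agent.Lib.MP_5a17c4_lc.P.Spec

/-!
Consensus allocation with at most `n (n - 1) - 1` shared objects is decided in polynomial time.
-/

set_option autoImplicit false

namespace Pool.Agent.Lib.MP_5a17c4_lc.P

open Finset Turing Filter Pool.Agent.Shared.PolyTime

variable {n : ℕ}

theorem outputs_mono {A : TM2ComputableAux Bool Bool} {a b : List Bool} {T T' : ℕ}
    (h : Outputs A a b T) (hT : T ≤ T') : Outputs A a b T' := by
  obtain ⟨⟨h, h'⟩⟩ := h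
  exact ⟨⟨h, h'.trans hT⟩⟩

theorem exists_machine {β : Type} [N487b59b3 β] {f : List ℕ → β} (h : PT f) :
    ∃ (A : TM2ComputableAux Bool Bool) (p : Polynomial ℕ), ∀ m (v : Inst n m),
      Outputs A (enc v) (N487b59b3.bitEncode (f (flat v))) (p.eval (enc v).length) := by
  obtain ⟨M⟩ := RP.toTM2 h
  exact ⟨M.toTM2ComputableAux, M.time, fun m v => ⟨M.outputsFun (flat v)⟩⟩

/-- The worst case form. -/
theorem poly (hn : 3 ≤ n) : ∃ (A : TM2ComputableAux Bool Bool) (p : Polynomial ℕ),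
    ∀ m (v : Inst n m), ∃ b, Outputs A (enc v) [b] (p.eval (enc v).length) ∧
      (b = true ↔ ConsObj n (n * (n - 1) - 1) m v) := by
  obtain ⟨A, p, h⟩ := exists_machine (n := n) (alg_pt n)
  exact ⟨A, p, fun m v => ⟨_, h m v, alg_iff hn v⟩⟩

theorem enc_le (c : ℝ) : ∃ q : Polynomial ℕ, ∀ m, ∀ v ∈ box c n m,
    (enc v).length ≤ q.eval (m * n) := by
  refine ⟨Polynomial.X * (2 * (Polynomial.C ⌈c⌉₊ * Polynomial.X + 1) + 1), fun m v hv => ?_⟩
  have h1 : ⌊(2 : ℝ) ^ (c * (m * n : ℕ))⌋₊ ≤ 2 ^ (⌈c⌉₊ * (m * n)) := by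
    refine Nat.floor_le_of_le ?_
    rw [Nat.cast_pow, Nat.cast_ofNat, ← Real.rpow_natCast, Nat.cast_mul ⌈c⌉₊]
    exact Real.rpow_le_rpow_of_exponent_le (by norm_num)
      (mul_le_mul_of_nonneg_right (Nat.le_ceil c) (Nat.cast_nonneg _))
  have h2 := sz_list_le (l := flat v) (B := ⌈c⌉₊ * (m * n) + 1) fun a ha => by
    rw [flat_eq, List.mem_ofFn] at ha
    obtain ⟨k, rfl⟩ := ha
    have := mem_Iic.1 (Fintype.mem_piFinset.1 (Fintype.mem_piFinset.1 hv k.modNat) k.divNat)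
    rw [sz_nat, Nat.size_le, pow_succ]
    have := Nat.two_pow_pos (⌈c⌉₊ * (m * n))
    omega
  rw [flat_length] at h2
  change sz (flat v) ≤ _
  simpa using h2

theorem self_mem {c : ℝ} {m : ℕ} {x : Inst n m} (hx : x ∈ box c n m) (r : ℕ) : x ∈ ball c x r :=
  mem_filter.2 ⟨hx, fun i o => by simp⟩

theorem generic (hn : 3 ≤ n) : ∃ A : TM2ComputableAux Bool Bool, ∀ (c : ℝ) (f : Polynomial ℕ),
    Decides c (ConsObj n (n * (n - 1) - 1)) A ∧
    InBall (n := n) c (fun t => f.eval t) (fun m x => ball c x (f.eval (m * n))) ∧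
    CondA (n := n) c A (fun m x => ball c x (f.eval (m * n))) ∧
    CondB (n := n) c (fun t => f.eval t) (fun m x => ball c x (f.eval (m * n))) ∧
    CondC (n := n) c (fun m x => ball c x (f.eval (m * n))) := by
  obtain ⟨A, p, h⟩ := poly hn
  refine ⟨A, fun c f => ?_⟩
  obtain ⟨q, hq⟩ := enc_le (n := n) c
  obtain ⟨B, p', h'⟩ := exists_machine (n := n) PT.id'
  refine ⟨fun m v _ => ?_, ⟨⟨f, fun _ => le_rfl⟩, fun _ _ _ => subset_rfl⟩,
    ⟨p.comp q, fun m x _ y hy => ?_⟩, tendsto_const_nhds.congr fun m => ?_,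
    B, p'.comp q, fun m x hx => ⟨x, self_mem hx _, outputs_mono (h' m x) ?_⟩⟩
  · obtain ⟨b, h1, h2⟩ := h m v
    exact ⟨b, _, h1, h2⟩
  · obtain ⟨b, h1, -⟩ := h m y
    refine ⟨_, outputs_mono h1 ?_⟩
    rw [Polynomial.eval_comp]
    exact eval_mono p (hq m y (mem_filter.1 hy).1)
  · have : Nonempty (box c n m) := ⟨⟨0, by simp [box]⟩⟩
    rw [← ciInf_const (ι := box c n m) (a := (1 : ℝ))]
    congr 1
    funext x
    rw [div_self]
    exact_mod_cast (card_pos.2 ⟨_, self_mem x.2 _⟩).ne'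
  · rw [Polynomial.eval_comp]
    exact eval_mono p' (hq m x hx)

end Pool.Agent.Lib.MP_5a17c4_lc.P
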