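import Pool.Agent.Lib.MP_5a17c4_lc.P.Box

/-!
Vertices of the one-bin polytope, partners and pivot steps.
-/

set_option autoImplicit false
set_option linter.unusedSectionVars false

namespace Pool.Agent.Lib.MP_5a17c4_lc.P

open Finset Module

variable {ι : Type} [Fintype ι] [DecidableEq ι] {E : Type} [AddCommGroup E] [Module ℝ E]
  [FiniteDimensional ℝ E] {v : ι → E} {τ : E}

/-- The fractional coordinates. -/
noncomputable def fr (x : ι → ℝ) : Finset ι := cut 1 x

theorem mem_fr {x : ι → ℝ} {o : ι} : o ∈ fr x ↔ 0 < x o ∧ x o < 1 := mem_cut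

theorem Box.int {x : ι → ℝ} (h : Box 1 x) {o : ι} (ho : o ∉ fr x) : x o = 0 ∨ x o = 1 := h.eq_of ho

theorem not_fr {x : ι → ℝ} {o : ι} (h : x o = 0 ∨ x o = 1) : o ∉ fr x := by
  rw [mem_fr]; rintro ⟨a, b⟩; rcases h with h | h <;> linarith

theorem Box.one {ρ y : ι → ℝ} (hρ : Box 1 ρ) (hy : Box (1 - ρ) y) : Box 1 y := fun o => by
  have := hρ o
  have := hy o
  simp only [Pi.sub_apply, Pi.one_apply] at *
  constructor <;> linarith

theorem fr_sdiff_sub {ρ y : ι → ℝ} (hρ : Box 1 ρ) (hy : Box (1 - ρ) y) :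
    fr y \ fr ρ ⊆ cut (1 - ρ) y := fun o ho => by
  rw [mem_sdiff, mem_fr] at ho
  have := (hy o).2
  simp only [mem_cut, Pi.sub_apply, Pi.one_apply] at *
  rcases hρ.int ho.2 with h | h <;> constructor <;> linarith [ho.1.1, ho.1.2]

/-- The pieces left over by `ρ` can be changed freely without changing the basis. -/
theorem free {ρ y : ι → ℝ} (hρ : Box 1 ρ)
    (hs : ∀ y, Box (1 - ρ) y → L v y = τ → finrank ℝ E ≤ (fr y \ fr ρ).card)
    (hy : Box (1 - ρ) y) (hv : L v y = τ) (hi : Indep v (cut (1 - ρ) y)) (η : ι → ℝ)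
    (hη : ∀ o ∈ fr ρ, 0 ≤ η o ∧ η o ≤ 1 - ρ o) :
    (cut (1 - ρ) y).card = finrank ℝ E ∧ (∀ b ∈ cut (1 - ρ) y, ρ b = 0) ∧
      ∃ y1, Box (1 - ρ) y1 ∧ L v y1 = τ ∧ (∀ o ∈ fr ρ, y1 o = η o) ∧
        (∀ b ∈ cut (1 - ρ) y, 0 < y1 b ∧ y1 b < 1) ∧
        ∀ o, o ∉ fr ρ → o ∉ cut (1 - ρ) y → y1 o = y o := by
  set B := cut (1 - ρ) y with hB
  have h1 : fr y \ fr ρ = B :=
    eq_of_subset_of_card_le (fr_sdiff_sub hρ hy) (hi.card_le.trans (hs y hy hv))
  have h2 : B.card = finrank ℝ E := le_antisymm hi.card_le (h1 ▸ hs y hy hv)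
  have h3 : ∀ b ∈ B, b ∉ fr ρ ∧ 0 < y b ∧ y b < 1 := fun b hb => by
    rw [← h1, mem_sdiff, mem_fr] at hb
    exact ⟨hb.2, hb.1⟩
  have h4 : ∀ b ∈ B, ρ b = 0 := fun b hb => by
    have := mem_cut.1 hb
    simp only [Pi.sub_apply, Pi.one_apply] at this
    rcases hρ.int (h3 b hb).1 with h | h
    · exact h
    · linarith [this.1, this.2]
  let δ : ι → ℝ := fun o => if o ∈ fr ρ then η o - y o else 0
  obtain ⟨n, hn, hn'⟩ := hi.span h2 (-L v δ)
  have key : ∀ t : ℝ, 0 ≤ t → t ≤ 1 → (∀ b ∈ B, 0 ≤ y b + t * n b ∧ y b + t * n b ≤ 1) →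
      Box (1 - ρ) (y + t • (δ + n)) ∧ L v (y + t • (δ + n)) = τ := by
    intro t t0 t1 ht
    refine ⟨fun o => ?_, by simp [hn', hv]⟩
    simp only [Pi.add_apply, Pi.smul_apply, smul_eq_mul, Pi.sub_apply, Pi.one_apply, δ]
    by_cases ho : o ∈ B
    · rw [if_neg (h3 o ho).1, h4 o ho, zero_add, sub_zero]; exact ht o ho
    · rw [hn o ho, add_zero]
      have := hy o
      simp only [Pi.sub_apply, Pi.one_apply] at this
      split_ifs with h
      · have := hη o h
        constructor <;> nlinarith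
      · simpa using this
  have h5 : ∀ b ∈ B, 0 < y b + n b ∧ y b + n b < 1 := by
    by_contra hc
    obtain ⟨t, t0, t1, ht, b, hb, hb'⟩ := hit B y n (fun o ho => (h3 o ho).2) hc
    obtain ⟨k1, k2⟩ := key t t0.le t1 ht
    have k3 : fr (y + t • (δ + n)) \ fr ρ ⊆ B.erase b := fun o ho => by
      have k4 := mem_sdiff.1 ho
      have k5 : o ∈ B := by
        by_contra k5
        have : (y + t • (δ + n)) o = y o := by simp [δ, k4.2, hn o k5]
        refine k5 (h1 ▸ mem_sdiff.2 ⟨?_, k4.2⟩)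
        rw [mem_fr, ← this, ← mem_fr]; exact k4.1
      refine mem_erase.2 ⟨?_, k5⟩
      rintro rfl
      refine not_fr ?_ k4.1
      simpa [δ, k4.2] using hb'
    have := (hs _ k1 k2).trans (card_le_card k3)
    rw [card_erase_of_mem hb] at this
    have := card_pos.2 ⟨b, hb⟩
    omega
  obtain ⟨k1, k2⟩ := key 1 zero_le_one le_rfl fun b hb => by
    have := h5 b hb
    constructor <;> linarith [this.1, this.2]
  refine ⟨h2, h4, _, k1, k2, fun o ho => ?_, fun b hb => ?_, fun o h h' => ?_⟩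
  · have : o ∉ B := fun h => (h3 o h).1 ho
    simp [δ, ho, hn o this]
  · simpa [δ, (h3 b hb).1] using h5 b hb
  · simp [δ, h, hn o h']

/-- A vertex: exactly `d` fractional coordinates. -/
structure Vx (v : ι → E) (τ : E) (x : ι → ℝ) : Prop where
  box : Box 1 x
  val : L v x = τ
  card : (fr x).card = finrank ℝ E

/-- Disjoint supports. -/
def Pa (x y : ι → ℝ) : Prop := ∀ o, x o = 0 ∨ y o = 0

theorem Pa.symm {x y : ι → ℝ} (h : Pa x y) : Pa y x := fun o => (h o).symm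

theorem partner_of {ρ y : ι → ℝ} (hρ : Box 1 ρ)
    (hs : ∀ y, Box (1 - ρ) y → L v y = τ → finrank ℝ E ≤ (fr y \ fr ρ).card)
    (hy : Box (1 - ρ) y) (hv : L v y = τ) (hi : Indep v (cut (1 - ρ) y)) :
    ∃ y0, Vx v τ y0 ∧ Pa ρ y0 ∧ fr y0 = cut (1 - ρ) y ∧
      ∀ o, o ∉ fr ρ → o ∉ cut (1 - ρ) y → y0 o = y o := by
  obtain ⟨h1, h2, y0, h3, h4, h5, h6, h7⟩ := free hρ hs hy hv hi 0 fun o ho => by
    have := mem_fr.1 ho
    simp only [Pi.zero_apply]
    constructor <;> linarith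
  have h8 : fr y0 = cut (1 - ρ) y := by
    ext o
    refine ⟨fun ho => ?_, fun ho => mem_fr.2 (h6 o ho)⟩
    by_contra hc
    by_cases h : o ∈ fr ρ
    · exact not_fr (Or.inl (h5 o h)) ho
    · refine hc (fr_sdiff_sub hρ hy (mem_sdiff.2 ⟨?_, h⟩))
      rw [mem_fr, ← h7 o h hc, ← mem_fr]; exact ho
  refine ⟨y0, ⟨hρ.one h3, h4, h8 ▸ h1⟩, fun o => ?_, h8, h7⟩
  by_cases h : o ∈ fr ρ
  · exact Or.inr (h5 o h)
  · refine (hρ.int h).imp_right fun h' => ?_
    have := h3 o
    simp only [Pi.sub_apply, Pi.one_apply, h', sub_self] at this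
    exact le_antisymm this.2 this.1

/-- The hypotheses on the one-bin polytope. -/
structure Ctx (v : ι → E) (τ : E) : Prop where
  two : ∀ x y, Box 1 x → L v x = τ → Box (1 - x) y → L v y = τ →
    2 * finrank ℝ E ≤ (fr x ∪ fr y).card
  half : ∀ x, Box 1 x → L v x = τ → ∃ y, Box (1 - x) y ∧ L v y = τ ∧ ∀ o, y o < 1

namespace Ctx

variable (c : Ctx v τ)
include c

theorem one {x : ι → ℝ} (hx : Box 1 x) (hv : L v x = τ) : finrank ℝ E ≤ (fr x).card := by
  obtain ⟨y, h1, h2, -⟩ := c.half x hx hv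
  obtain ⟨y', h3, h4, -, h5, -⟩ := reduce v (1 - x) 0 _ y rfl h1
  have h6 := c.two x y' hx hv h3 (h4.trans h2)
  have h7 := card_le_card (fr_sdiff_sub hx h3)
  have h8 := h5.card_le
  have h9 := card_sdiff_add_card (fr y') (fr x)
  rw [union_comm] at h9
  omega

theorem vx {x : ι → ℝ} (hx : Box 1 x) (hv : L v x = τ) (h : (fr x).card ≤ finrank ℝ E) :
    Vx v τ x := ⟨hx, hv, le_antisymm h (c.one hx hv)⟩

theorem indep {x : ι → ℝ} (hx : Vx v τ x) : Indep v (fr x) := by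
  obtain ⟨y, h1, h2, h3, h4, -⟩ := reduce v 1 0 _ x rfl hx.box
  have : fr y = fr x := eq_of_subset_of_card_le (cut_sub h3) (hx.card ▸ c.one h1 (h2.trans hx.val))
  exact this ▸ h4

theorem hs {x : ι → ℝ} (hx : Vx v τ x) (y : ι → ℝ) (h1 : Box (1 - x) y) (h2 : L v y = τ) :
    finrank ℝ E ≤ (fr y \ fr x).card := by
  have h6 := c.two x y hx.box hx.val h1 h2
  have h9 := card_sdiff_add_card (fr y) (fr x)
  rw [union_comm] at h9
  have := hx.card
  omega

theorem partner {x : ι → ℝ} (hx : Vx v τ x) (p : ι) : ∃ y, Vx v τ y ∧ Pa x y ∧ y p < 1 := by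
  obtain ⟨y, h1, h2, h0⟩ := c.half x hx.box hx.val
  obtain ⟨y', h3, h4, -, h5, h6⟩ := reduce v (1 - x) (Pi.single p 1) _ y rfl h1
  obtain ⟨y0, a1, a2, a3, a4⟩ := partner_of hx.box (c.hs hx) h3 (h4.trans h2) h5
  refine ⟨y0, a1, a2, ?_⟩
  by_cases b1 : p ∈ fr x
  · rcases a2 p with h | h
    · exact absurd b1 (not_fr (Or.inl h))
    · rw [h]; exact one_pos
  by_cases b2 : p ∈ cut (1 - x) y'
  · exact (mem_fr.1 (a3 ▸ b2)).2
  · rw [a4 p b1 b2]
    have : y' p ≤ y p := by simpa [Pi.single_apply] using h6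
    exact this.trans_lt (h0 p)

end Ctx

/-- A pivot step from `x` to the vertex `x'`: `p` enters and `e` leaves. -/
structure Step (v : ι → E) (τ : E) (x : ι → ℝ) (p e : ι) (x' : ι → ℝ) : Prop where
  vx : Vx v τ x'
  out : p ∉ fr x
  ne : x' p ≠ x p
  eq : ∀ o, o ∉ fr x → o ≠ p → x' o = x o
  mem : e = p ∨ e ∈ fr x
  exit : e ∉ fr x'

theorem Step.sub {x x' : ι → ℝ} {p e : ι} (h : Step v τ x p e x') :
    fr x' ⊆ (insert p (fr x)).erase e := fun o ho => by
  refine mem_erase.2 ⟨fun e' => h.exit (e' ▸ ho), ?_⟩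
  by_contra hc
  rw [mem_insert, not_or] at hc
  rw [mem_fr, h.eq o hc.2 hc.1, ← mem_fr] at ho
  exact hc.2 ho

theorem Step.fr_eq {x x' : ι → ℝ} {p e : ι} (hx : Vx v τ x) (h : Step v τ x p e x') :
    fr x' = (insert p (fr x)).erase e := by
  refine eq_of_subset_of_card_le h.sub ?_
  rw [card_erase_of_mem (mem_insert.2 h.mem), card_insert_of_notMem h.out, h.vx.card, hx.card]
  simp

theorem Step.mem_iff {x x' : ι → ℝ} {p e : ι} (hx : Vx v τ x) (h : Step v τ x p e x') {o : ι} :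
    o ∈ fr x' ↔ o ≠ e ∧ (o = p ∨ o ∈ fr x) := by rw [h.fr_eq hx, mem_erase, mem_insert]

theorem Step.rev {x x' : ι → ℝ} {p e : ι} (hx : Vx v τ x) (h : Step v τ x p e x') :
    Step v τ x' e p x := by
  refine ⟨hx, h.exit, ?_, fun o h1 h2 => ?_, ?_, h.out⟩
  · rcases h.mem with rfl | he
    · exact h.ne.symm
    · intro e'
      refine h.exit ?_
      rw [mem_fr, ← e', ← mem_fr]; exact he
  · rw [h.mem_iff hx] at h1
    push Not at h1
    exact (h.eq o (h1 h2).2 (h1 h2).1).symm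
  · by_cases e' : p = e
    · exact Or.inl e'
    · exact Or.inr ((h.mem_iff hx).2 ⟨e', Or.inl rfl⟩)

namespace Ctx

variable (c : Ctx v τ)
include c

theorem step {x : ι → ℝ} (hx : Vx v τ x) {p : ι} (hp : p ∉ fr x) : ∃ e x', Step v τ x p e x' := by
  obtain ⟨σ, hσ, hσ'⟩ : ∃ σ : ℝ, σ ≠ 0 ∧ ∀ t, 0 ≤ t → t ≤ 1 → 0 ≤ x p + t * σ ∧ x p + t * σ ≤ 1 ∧
      (x p + σ = 0 ∨ x p + σ = 1) := by
    rcases hx.box.int hp with h | h
    · exact ⟨1, one_ne_zero, fun t a b => by rw [h]; exact ⟨by linarith, by linarith, by simp⟩⟩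
    · exact ⟨-1, by norm_num, fun t a b => by rw [h]; exact ⟨by linarith, by linarith, by simp⟩⟩
  obtain ⟨n, hn, hn'⟩ := (c.indep hx).span hx.card (-(σ • v p))
  have key : ∀ t : ℝ, 0 < t → t ≤ 1 → (∀ b ∈ fr x, 0 ≤ x b + t * n b ∧ x b + t * n b ≤ 1) →
      ∀ e, (e = p ∨ e ∈ fr x) → e ∉ fr (x + t • (Pi.single p σ + n)) →
      Step v τ x p e (x + t • (Pi.single p σ + n)) := by
    intro t t0 t1 ht e he he'
    have h1 : ∀ o, o ∉ fr x → o ≠ p → (x + t • (Pi.single p σ + n : ι → ℝ)) o = x o :=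
      fun o a b => by simp [hn o a, b]
    refine ⟨c.vx (fun o => ?_) (by simp [L_single, hn', hx.val]) ?_, hp, ?_, h1, he, he'⟩
    · by_cases a : o ∈ fr x
      · have : o ≠ p := fun e => hp (e ▸ a)
        simpa [this] using ht o a
      · by_cases b : o = p
        · subst b
          have := hσ' t t0.le t1
          simpa [hn o a] using ⟨this.1, this.2.1⟩
        · rw [h1 o a b]; exact hx.box o
    · have : fr (x + t • (Pi.single p σ + n)) ⊆ (insert p (fr x)).erase e := fun o ho => by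
        refine mem_erase.2 ⟨fun e' => he' (e' ▸ ho), ?_⟩
        by_contra hc
        rw [mem_insert, not_or] at hc
        rw [mem_fr, h1 o hc.2 hc.1, ← mem_fr] at ho
        exact hc.2 ho
      refine (card_le_card this).trans ?_
      rw [card_erase_of_mem (mem_insert.2 he), card_insert_of_notMem hp, hx.card]
      simp
    · simp [hn p hp, t0.ne', hσ]
  by_cases h : ∀ o ∈ fr x, 0 < x o + n o ∧ x o + n o < 1
  · refine ⟨p, _, key 1 one_pos le_rfl (fun b hb => ?_) p (Or.inl rfl) (not_fr ?_)⟩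
    · have := h b hb
      constructor <;> linarith [this.1, this.2]
    · simpa [hn p hp] using (hσ' 0 le_rfl zero_le_one).2.2
  · obtain ⟨t, t0, t1, ht, b, hb, hb'⟩ := hit _ x n (fun o ho => mem_fr.1 ho) h
    refine ⟨b, _, key t t0 t1 ht b (Or.inr hb) (not_fr ?_)⟩
    have : b ≠ p := fun e => hp (e ▸ hb)
    simpa [this] using hb'

theorem uniq_aux {x x' x'' : ι → ℝ} {p e e' : ι} (hx : Vx v τ x) (h : Step v τ x p e x')
    (h' : Step v τ x p e' x'') {θ : ℝ} (h0 : 0 < θ) (h1 : θ ≤ 1)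
    (hθ : x' p - x p = θ * (x'' p - x p)) : x' = x'' := by
  have h2 : x' - x - θ • (x'' - x) = 0 := by
    refine c.indep hx _ (fun o ho => ?_) (by simp [h.vx.val, h'.vx.val, hx.val])
    by_cases a : o = p
    · subst a; simp [hθ]
    · simp [h.eq o ho a, h'.eq o ho a]
  have h3 : ∀ o, x' o = x o + θ * (x'' o - x o) := fun o => by
    have := congrFun h2 o
    simp only [Pi.sub_apply, Pi.smul_apply, smul_eq_mul, Pi.zero_apply] at this
    linarith
  rcases h1.eq_or_lt with rfl | h1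
  · funext o; rw [h3 o]; ring
  refine absurd (mem_fr.2 ?_) h.exit
  rw [h3 e]
  have h4 := h'.vx.box e
  simp only [Pi.one_apply] at h4
  rcases h.mem with rfl | he
  · have h5 := h'.ne
    rcases hx.box.int h.out with a | a <;> rw [a] at h5 ⊢
    · have := lt_of_le_of_ne h4.1 h5.symm
      constructor <;> nlinarith
    · have := lt_of_le_of_ne h4.2 h5
      constructor <;> nlinarith
  · have := mem_fr.1 he
    constructor <;> nlinarith

theorem uniq {x x' x'' : ι → ℝ} {p e e' : ι} (hx : Vx v τ x) (h : Step v τ x p e x')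
    (h' : Step v τ x p e' x'') : x' = x'' ∧ e = e' := by
  have h1 : x' = x'' := by
    have a := sub_ne_zero.2 h.ne
    have b := sub_ne_zero.2 h'.ne
    have hp : 0 < (x' p - x p) / (x'' p - x p) := by
      have a1 := h.vx.box p
      have b1 := h'.vx.box p
      simp only [Pi.one_apply] at a1 b1
      rcases hx.box.int h.out with e0 | e0 <;> rw [e0] at a b ⊢
      · exact div_pos (lt_of_le_of_ne (by linarith) a.symm) (lt_of_le_of_ne (by linarith) b.symm)
      · exact div_pos_of_neg_of_neg (lt_of_le_of_ne (by linarith) a) (lt_of_le_of_ne (by linarith) b)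
    rcases le_total ((x' p - x p) / (x'' p - x p)) 1 with h2 | h2
    · exact c.uniq_aux hx h h' hp h2 (by field_simp)
    · exact (c.uniq_aux hx h' h (inv_pos.2 hp) (inv_le_one_of_one_le₀ h2) (by field_simp)).symm
  refine ⟨h1, ?_⟩
  by_contra hc
  exact h.exit (h1 ▸ (h'.mem_iff hx).2 ⟨hc, h.mem⟩)

/-- Transport of a partner along a pivot step whose entering item is basic in the partner. -/
theorem trans {x x' y : ι → ℝ} {b e : ι} (hx : Vx v τ x) (hy : Vx v τ y) (hp : Pa x y)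
    (hb : b ∈ fr y) (h : Step v τ x b e x') :
    e ≠ b ∧ x' e = 0 ∧ ∃ y', Step v τ y e b y' ∧ Pa x' y' := by
  have hb' := mem_fr.1 hb
  have xb : x b = 0 := (hp b).resolve_right hb'.1.ne'
  have ys : ∀ o ∈ fr x, y o = 0 := fun o ho => (hp o).resolve_left (mem_fr.1 ho).1.ne'
  have hbox : Box (1 - x) y := fun o => by
    have a := hx.box o
    have b := hy.box o
    simp only [Pi.sub_apply, Pi.one_apply] at *
    rcases hp o with h | h <;> rw [h] at * <;> constructor <;> linarith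
  have hcut : cut (1 - x) y = fr y := by
    ext o
    have a := hx.box o
    rw [mem_cut, mem_fr]
    simp only [Pi.sub_apply, Pi.one_apply] at *
    refine and_congr_right fun h => ?_
    rw [(hp o).resolve_right h.ne', sub_zero]
  obtain ⟨-, -, y1, a1, a2, a3, a4, a5⟩ := free hx.box (c.hs hx) hbox hy.val
    (hcut ▸ c.indep hy) (1 - x) fun o ho => by
      have := mem_fr.1 ho
      simp only [Pi.sub_apply, Pi.one_apply]
      constructor <;> linarith
  rw [hcut] at a4 a5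
  have a6 := a4 b hb
  set θ := y b / (y b + 1 - y1 b) with hθ
  have hd : 0 < y b + 1 - y1 b := by linarith
  have θ0 : 0 < θ := div_pos hb'.1 hd
  have θ1 : θ < 1 := (div_lt_one hd).2 (by linarith)
  set z : ι → ℝ := θ • (y1 + Pi.single b (1 - y1 b) + (x - x')) +
    (1 - θ) • (y - Pi.single b (y b)) with hz
  have z1 : ∀ o, o = b ∨ o ∈ fr x → z o = θ * (1 - x' o) := by
    rintro o (rfl | ho)
    · simp [hz, xb]; ring
    · have : o ≠ b := fun e => h.out (e ▸ ho)
      simp [hz, this, a3 o ho, ys o ho]; ring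
  have z2 : ∀ o, o ≠ b → o ∉ fr x → z o = θ * y1 o + (1 - θ) * y o := fun o h1 h2 => by
    simp [hz, h1, h.eq o h2 h1]
  have z3 : L v z = τ := by
    simp only [hz, map_add, map_sub, map_smul, L_single, a2, hy.val, hx.val, h.vx.val]
    have : θ * (1 - y1 b) - (1 - θ) * y b = 0 := by rw [hθ]; field_simp; ring
    calc _ = τ + (θ * (1 - y1 b) - (1 - θ) * y b) • v b := by module
      _ = τ := by rw [this]; simp
  have z4 : Box (1 - x') z := fun o => by
    have k := h.vx.box o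
    simp only [Pi.sub_apply, Pi.one_apply] at *
    by_cases ho : o = b ∨ o ∈ fr x
    · rw [z1 o ho]; constructor <;> nlinarith
    · push Not at ho
      have k1 := a1 o
      have k2 := hbox o
      simp only [Pi.sub_apply, Pi.one_apply] at k1 k2
      rw [z2 o ho.1 ho.2, h.eq o ho.2 ho.1]
      constructor <;> nlinarith
  have z5 : ∀ o, o ∉ fr x → o ∉ fr y → z o = y o := fun o h1 h2 => by
    rw [z2 o (fun e => h2 (e ▸ hb)) h1, a5 o h1 h2]; ring
  have z6 : ∀ o, o ∉ fr x → o ∉ fr y → o ∉ cut (1 - x') z := fun o h1 h2 h3 => by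
    have k := h.vx.box o
    rw [mem_cut, z5 o h1 h2] at h3
    simp only [Pi.sub_apply, Pi.one_apply] at h3 k
    rcases hy.box.int h2 with h4 | h4 <;> linarith [h3.1, h3.2]
  obtain ⟨w, b1, b2, b3, b4, -⟩ := reduce v (1 - x') 0 _ z rfl z4
  obtain ⟨y', c1, c2, c3, c4⟩ := partner_of h.vx.box (c.hs h.vx) b1 (b2.trans z3) b4
  have d1 : ∀ o ∈ fr y', x' o = 0 := fun o ho => (c2 o).resolve_right (mem_fr.1 ho).1.ne'
  have d0 : b ∉ fr y' := fun hc => h.ne ((d1 b hc).trans xb.symm)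
  have d2 : fr y' ⊆ insert e ((fr y).erase b) := fun o ho => by
    by_contra hc
    rw [mem_insert, not_or, mem_erase] at hc
    have k1 : o ≠ b := fun e => d0 (e ▸ ho)
    refine z6 o (fun k => ?_) (fun k => hc.2 ⟨k1, k⟩) (cut_sub b3 (c3 ▸ ho))
    exact not_fr (Or.inl (d1 o ho)) ((h.mem_iff hx).2 ⟨hc.1, Or.inr k⟩)
  have d3 : e ∈ fr y' := by
    by_contra hc
    have : fr y' ⊆ (fr y).erase b := fun o ho =>
      (mem_insert.1 (d2 ho)).resolve_left fun e' => hc (e' ▸ ho)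
    have k := card_le_card this
    rw [card_erase_of_mem hb, c1.card, hy.card] at k
    have := card_pos.2 ⟨b, hb⟩
    rw [hy.card] at this
    omega
  have d4 : e ≠ b := fun e' => d0 (e' ▸ d3)
  have d5 : e ∈ fr x := h.mem.resolve_left d4
  refine ⟨d4, d1 e d3, y', ⟨c1, not_fr (Or.inl (ys e d5)), ?_, fun o h1 h2 => ?_, Or.inr hb, d0⟩, c2⟩
  · rw [ys e d5]; exact (mem_fr.1 d3).1.ne'
  · by_cases k : o ∈ fr x
    · rw [ys o k]
      exact (c2 o).resolve_left (mem_fr.1 ((h.mem_iff hx).2 ⟨h2, Or.inr k⟩)).1.ne'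
    · have k1 : o ≠ b := fun e => h1 (e ▸ hb)
      have k2 := z6 o k h1
      rw [c4 o (fun k3 => ?_) (fun k3 => k2 (cut_sub b3 k3)), b3 o k2, z5 o k h1]
      rcases ((h.mem_iff hx).1 k3).2 with k4 | k4
      exacts [k1 k4, k k4]

end Ctx

end Pool.Agent.Lib.MP_5a17c4_lc.P
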