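import Pool.Agent.Lib.MP_5a17c4_lc.P.Struct
import Pool.Agent.Lib.MP_5a17c4_lc.P.Alg
import Pool.Agent.Lib.MP_5a17c4_lc.Defs

/-!
Correctness of the search for disjoint good sets.
-/

set_option autoImplicit false

namespace Pool.Agent.Lib.MP_5a17c4_lc.P

open Finset Module Matrix Pool.Agent.Shared.PolyTime

theorem phi_nonneg {k : ℕ} (hk : 1 ≤ k) (s : ℝ) : 0 ≤ phi k s := by
  have : (1 : ℝ) ≤ k := by exact_mod_cast hk
  rcases le_total 0 s with h | h
  · exact le_max_of_le_left h
  · exact le_max_of_le_right (by nlinarith)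

theorem Good.lt {ι E : Type} [Fintype ι] [DecidableEq ι] [AddCommGroup E] [Module ℝ E]
    {v : ι → E} {k : ℕ} {T : Finset ι} {μ : E →ₗ[ℝ] ℝ} (h : Good k v T μ) (hk : 2 ≤ k) {a b : ι}
    (ha : a ∈ T) (hb : b ∉ T) : μ (v b) < μ (v a) := by
  have h1 := (sum_le_sum_of_subset_of_nonneg (subset_univ {a, b})
    fun o _ _ => phi_nonneg (by omega) _).trans_lt h.2
  rw [sum_pair (fun e : a = b => hb (e ▸ ha)), if_pos ha, if_neg hb, sub_zero] at h1
  have h2 : (2 : ℝ) ≤ k := by exact_mod_cast hk
  have h3 := phi_nonneg (k := k) (by omega) (μ (v a) - 1)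
  have h4 : μ (v b) ≤ phi k (μ (v b)) := le_max_left _ _
  have h5 : -((k - 1) * (μ (v a) - 1)) ≤ phi k (μ (v a) - 1) := le_max_right _ _
  by_contra hc
  nlinarith

theorem phz_cast {n : ℕ} (hn : 1 ≤ n) (a : ℤ) {d : ℝ} (hd : 0 < d) :
    phi n (a / d) = phz n a / d := by
  have : (1 : ℝ) ≤ n := by exact_mod_cast hn
  unfold phi phz
  split_ifs with h
  · have : (0 : ℝ) ≤ a / d := div_nonneg (by exact_mod_cast h) hd.le
    rw [max_eq_left (by nlinarith)]
  · have : (a : ℝ) / d ≤ 0 := div_nonpos_of_nonpos_of_nonneg (by exact_mod_cast (not_le.1 h).le) hd.le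
    rw [max_eq_right (by nlinarith)]
    push_cast
    ring

theorem sum_rng {M : Type} [AddCommMonoid M] (m : ℕ) (f : ℕ → M) :
    ((List.range m).map f).sum = ∑ o : Fin m, f o := by
  rw [Fin.sum_univ_eq_sum_range f]
  induction m with
  | zero => simp
  | succ m ih => simp [List.range_succ, sum_range_succ, ih]

theorem countP_rng (m : ℕ) (p : ℕ → Bool) :
    (List.range m).countP p = (univ.filter fun o : Fin m => p o).card := by
  rw [card_filter, ← sum_rng m fun o => if p o then 1 else 0]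
  induction List.range m with
  | nil => rfl
  | cons a l ih => simp only [List.countP_cons, ih, List.map_cons, List.sum_cons, add_comm]

theorem all_rng (m : ℕ) (p : ℕ → Bool) : (List.range m).all p = true ↔ ∀ i : Fin m, p i = true := by
  simp only [List.all_eq_true, List.mem_range]
  exact ⟨fun h i => h i i.2, fun h i hi => h ⟨i, hi⟩⟩

variable {n m : ℕ}

/-- The list of the entries of an instance. -/
def flat (v : Inst n m) : List ℕ := (List.ofFn fun o => List.ofFn fun i => v i o).flatten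

/-- The value vector of an object. -/
def vec (v : Inst n m) (o : Fin m) : Fin n → ℝ := fun i => v i o

theorem flat_eq (v : Inst n m) : flat v = List.ofFn fun k : Fin (m * n) => v k.modNat k.divNat := by
  rw [List.ofFn_mul]
  unfold flat
  congr 2
  funext o
  congr 1
  funext i
  congr 1 <;> apply Fin.ext
  · simp [Nat.mod_eq_of_lt i.2]
  · simp [add_comm, Nat.add_mul_div_right _ _ i.pos, Nat.div_eq_of_lt i.2]

theorem flat_length (v : Inst n m) : (flat v).length = m * n := by simp [flat_eq]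

theorem ent_flat (v : Inst n m) (o : Fin m) (i : Fin n) : ent n (flat v) o i = v i o := by
  have h : (o : ℕ) * n + i < m * n := by
    have := Nat.mul_le_mul_right n o.2
    have := i.2
    rw [Nat.succ_mul] at *
    omega
  unfold ent
  rw [flat_eq, List.getD_eq_getElem _ _ (by simpa using h), List.getElem_ofFn]
  congr 2 <;> apply Fin.ext
  · simp [Nat.mod_eq_of_lt i.2]
  · simp [add_comm, Nat.add_mul_div_right _ _ i.pos, Nat.div_eq_of_lt i.2]

/-- The matrix of a candidate basis. -/
def mat (n : ℕ) (l c : List ℕ) : Matrix (Fin n) (Fin n) ℝ :=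
  Matrix.of fun j i => (ent n l (c.getD j 0) i : ℝ)

/-- The coordinate functional of a candidate basis. -/
noncomputable def mu (i0 : Fin n) (l c : List ℕ) : (Fin n → ℝ) →ₗ[ℝ] ℝ :=
  (mat n l c).det⁻¹ • (LinearMap.proj i0 ∘ₗ cramer (mat n l c)ᵀ)

variable {i0 : Fin n} (h0 : (i0 : ℕ) = 0)
include h0

theorem dt_cast (l c : List ℕ) (o : ℕ) :
    (dt n l c o : ℝ) = cramer (mat n l c)ᵀ (fun i => ent n l o i) i0 := by
  rw [cramer_transpose_apply, dt, Int.cast_det]
  congr 1
  ext j i
  by_cases h : j = i0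
  · simp [h, h0]
  · have : (j : ℕ) ≠ 0 := fun e => h (Fin.ext (e.trans h0.symm))
    simp [h, this, mat]

theorem dt_self (l c : List ℕ) : (dt n l c (c.getD 0 0) : ℝ) = (mat n l c).det := by
  have := congrFun (cramer_transpose_row_self (mat n l c) i0) i0
  rw [Pi.single_eq_same] at this
  have e : mat n l c i0 = fun i : Fin n => (ent n l (c.getD 0 0) i : ℝ) := by
    funext i
    rw [mat, Matrix.of_apply, h0]
  rw [dt_cast h0, ← this, e]

theorem av_self (l c : List ℕ) : (av n l c (c.getD 0 0) : ℝ) = (mat n l c).det ^ 2 := by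
  rw [av, Int.cast_mul, dt_self h0, sq]

theorem mu_vec (v : Inst n m) (c : List ℕ) (o : Fin m) :
    mu i0 (flat v) c (vec v o) = av n (flat v) c o / (mat n (flat v) c).det ^ 2 := by
  have : (fun i : Fin n => (ent n (flat v) o i : ℝ)) = vec v o := by
    funext i
    simp [ent_flat, vec]
  rw [av, Int.cast_mul, dt_self h0, dt_cast h0, this]
  by_cases h : (mat n (flat v) c).det = 0
  · simp [mu, h]
  · simp only [mu, LinearMap.smul_apply, LinearMap.comp_apply, LinearMap.proj_apply, smul_eq_mul]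
    field_simp

theorem good_iff (v : Inst n m) (c : List ℕ) : good n (flat v) c = true ↔
    (mat n (flat v) c).det ≠ 0 ∧
      Good n (vec v) (univ.filter fun o : Fin m => inT n (flat v) c o) (mu i0 (flat v) c) := by
  have hn := i0.pos
  have e1 : (flat v).length / n = m := by rw [flat_length, Nat.mul_div_cancel _ hn]
  have e2 := av_self h0 (flat v) c
  rw [good, e1, sum_rng, countP_rng, Bool.and_eq_true, decide_eq_true_iff, beq_iff_eq,
    ← Nat.dvd_iff_mod_eq_zero, ← Int.cast_lt (R := ℝ), e2, Good, and_comm, and_left_comm]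
  refine and_congr_right fun _ => ?_
  by_cases h : (mat n (flat v) c).det = 0
  · have e3 : dt n (flat v) c (c.getD 0 0) = 0 := by exact_mod_cast (dt_self h0 (flat v) c).trans h
    simp [h, dev, av, e3, phz, -List.getD_eq_getElem?_getD]
  · have hd : 0 < (mat n (flat v) c).det ^ 2 := by positivity
    rw [and_iff_right h, ← div_lt_one hd, Int.cast_sum, sum_div]
    refine Eq.to_iff (congrArg (· < (1 : ℝ)) (sum_congr rfl fun o _ => ?_))
    rw [← phz_cast hn _ hd, mu_vec h0, dev]
    congr 1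
    cases hb : inT n (flat v) c o
    · simp [hb]
    · simp only [cond_true, Int.cast_sub, e2, mem_filter, mem_univ, hb, and_self, if_true]
      field_simp

theorem exists_cand (hn : 2 ≤ n) (v : Inst n m) {S T : Finset (Fin m)} {s : Fin m}
    {μ : (Fin n → ℝ) →ₗ[ℝ] ℝ} (hS : Indep (vec v) S) (hc : S.card = n) (hs : s ∈ S) (hT : s ∈ T)
    (hμ : ∀ o ∈ S, μ (vec v o) = if o = s then 1 else 0) (hg : Good n (vec v) T μ) :
    ∃ c ∈ tup (List.range m) (n + 1), good n (flat v) c = true ∧
      ∀ o : Fin m, inT n (flat v) c o = true ↔ o ∈ T := by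
  obtain ⟨θ, hθ, hmin⟩ := exists_min_image T (fun o => μ (vec v o)) ⟨s, hT⟩
  obtain ⟨e, he⟩ : ∃ e : Fin n ≃ S, e i0 = ⟨s, hs⟩ :=
    ⟨(Equiv.swap i0 (S.equivFinOfCardEq hc ⟨s, hs⟩)).trans (S.equivFinOfCardEq hc).symm, by simp⟩
  have hinj : ∀ i j, (e i : Fin m) = e j ↔ i = j := fun i j => by simp
  let c : List ℕ := (List.ofFn fun j => ((e j : Fin m) : ℕ)) ++ [(θ : ℕ)]
  have c1 : ∀ j : Fin n, c.getD j 0 = (e j : Fin m) := fun j => by
    simp only [c]
    rw [List.getD_append _ _ _ _ (by simp), List.getD_eq_getElem _ _ (by simp), List.getElem_ofFn]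
  have c2 : c.getD n 0 = θ := by
    simp only [c]
    rw [List.getD_append_right _ _ _ _ (by simp)]
    simp
  have c3 : ∀ j, mat n (flat v) c j = vec v (e j) := fun j => by
    funext i
    simp [mat, -List.getD_eq_getElem?_getD, c1, ent_flat, vec]
  have hD : (mat n (flat v) c).det ≠ 0 := fun hD => by
    obtain ⟨w, h1, h2⟩ := exists_vecMul_eq_zero_iff.2 hD
    have h3 := hS (∑ j, Pi.single (e j : Fin m) (w j)) (fun o ho => by
      rw [Finset.sum_apply]
      exact sum_eq_zero fun j _ => Pi.single_eq_of_ne (fun k : o = e j => ho (k ▸ (e j).2)) _) (by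
      rw [map_sum, ← h2, vecMul_eq_sum]
      exact sum_congr rfl fun j _ => by rw [L_single, c3])
    refine h1 (funext fun j => ?_)
    simpa [Finset.sum_apply, Pi.single_apply, hinj] using congrFun h3 (e j)
  have hm : mu i0 (flat v) c = μ := by
    refine LinearMap.ext fun x => ?_
    obtain ⟨w, h1, rfl⟩ := hS.span (by simpa using hc) x
    rw [map_L, map_L]
    refine sum_congr rfl fun o _ => ?_
    by_cases ho : o ∈ S
    · obtain ⟨j, hj⟩ := e.surjective ⟨o, ho⟩
      have h2 : o = e j := by rw [hj]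
      have h3 : s = e i0 := by rw [he]
      rw [hμ o ho, h2, h3, ← c3]
      simp only [mu, LinearMap.smul_apply, LinearMap.comp_apply, LinearMap.proj_apply, smul_eq_mul,
        cramer_transpose_row_self, Pi.single_apply, hinj, eq_comm (a := i0)]
      split_ifs <;> simp [hD]
    · simp [h1 o ho]
  have hi : ∀ o : Fin m, inT n (flat v) c o = true ↔ o ∈ T := fun o => by
    have hd : 0 < (mat n (flat v) c).det ^ 2 := by positivity
    rw [inT, decide_eq_true_iff, c2, ← Int.cast_le (R := ℝ), ← div_le_div_iff_of_pos_right hd,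
      ← mu_vec h0, ← mu_vec h0, hm]
    exact ⟨fun h => by_contra fun k => (hg.lt hn hθ k).not_ge h, hmin o⟩
  refine ⟨c, mem_tup (by simp [c]) fun x hx => ?_, (good_iff h0 v c).2 ⟨hD, ?_⟩, hi⟩
  · simp only [c, List.mem_append, List.mem_ofFn, List.mem_singleton] at hx
    rcases hx with ⟨j, rfl⟩ | rfl <;> exact List.mem_range.2 (Fin.is_lt _)
  · rw [hm]
    convert hg
    ext o
    simp [hi]

omit h0 in
theorem cons_iff (s : ℕ) (v : Inst n m) : ConsObj n s m v ↔
    ∃ F, Split (vec v) ((n : ℝ)⁻¹ • L (vec v) 1) n 1 F ∧ F.card ≤ s := by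
  classical
  have key : ∀ y : Fin m → ℝ, L (vec v) y = (n : ℝ)⁻¹ • L (vec v) 1 ↔
      ∀ i, ∑ o, (v i o : ℝ) * y o = (∑ o, (v i o : ℝ)) / n := fun y => by
    simp [funext_iff, L_apply, vec, Finset.sum_apply, mul_comm, div_eq_mul_inv]
  constructor
  · rintro ⟨z, ⟨h1, h2, h3⟩, h4⟩
    refine ⟨_, ⟨z, h1, funext fun o => by simpa [Finset.sum_apply] using h2 o,
      fun j => (key _).2 fun i => h3 i j, fun o ho j => ?_⟩, h4⟩
    have h5 : z j o ≤ 1 := h2 o ▸ single_le_sum (f := fun j => z j o) (fun i _ => h1 i o) (mem_univ j)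
    by_contra hc
    push Not at hc
    exact ho (mem_filter.2 ⟨mem_univ _, j, lt_of_le_of_ne (h1 j o) hc.1.symm, lt_of_le_of_ne h5 hc.2⟩)
  · rintro ⟨F, ⟨z, h1, h2, h3, h4⟩, h5⟩
    refine ⟨z, ⟨h1, fun o => by simpa [Finset.sum_apply] using congrFun h2 o,
      fun i j => (key _).1 (h3 j) i⟩, le_trans (card_le_card fun o ho => ?_) h5⟩
    obtain ⟨j, a, b⟩ := (mem_filter.1 ho).2
    by_contra hc
    rcases h4 o hc j with k | k <;> linarith

omit h0 in
theorem alg_iff (hn : 3 ≤ n) (v : Inst n m) :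
    alg n (flat v) = true ↔ ConsObj n (n * (n - 1) - 1) m v := by
  have h0 : ((⟨0, by omega⟩ : Fin n) : ℕ) = 0 := rfl
  have e1 : (flat v).length / n = m := by rw [flat_length, Nat.mul_div_cancel _ (by omega)]
  have hp : 0 < n * (n - 1) := Nat.mul_pos (by omega) (by omega)
  rw [cons_iff, alg, e1, Bool.not_eq_true', ← Bool.not_eq_true, List.any_eq_true,
    not_iff_comm]
  simp only [all_rng, Bool.and_eq_true, Bool.or_eq_true, beq_iff_eq, Bool.not_eq_true',
    Bool.and_eq_false_imp]
  constructor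
  · intro h
    have r : Rigid (vec v) ((n : ℝ)⁻¹ • L (vec v) 1) n := by
      refine ⟨by rw [smul_smul, mul_inv_cancel₀ (by positivity), one_smul], fun F hF => ?_⟩
      by_contra hc
      exact h ⟨F, hF, by simp at hc; omega⟩
    obtain ⟨S0, T, h1, h2, h3⟩ := r.main hn
    simp only [finrank_fintype_fun_eq_card, Fintype.card_fin] at h1 h3
    have : ∀ a : S0, ∃ c ∈ tup (List.range m) (n + 1), good n (flat v) c = true ∧
        ∀ o : Fin m, inT n (flat v) c o = true ↔ o ∈ T a := fun a => by
      obtain ⟨S, s, μ, a1, a2, a3, a4, a5, a6⟩ := h3 a a.2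
      exact exists_cand h0 (by omega) v a1 a2 a3 a4 a5 a6
    choose c c1 c2 c3 using this
    let e := (S0.equivFinOfCardEq h1).symm
    have g : ∀ j : Fin n, (List.ofFn fun j => c (e j)).getD j [] = c (e j) := fun j => by
      rw [List.getD_eq_getElem _ _ (by simp), List.getElem_ofFn]
    refine ⟨List.ofFn fun j => c (e j), mem_tup (by simp) fun x hx => ?_, fun j => ?_⟩
    · obtain ⟨j, rfl⟩ := List.mem_ofFn.1 hx
      exact c1 _
    · refine ⟨by rw [g]; exact c2 _, fun j' => ?_⟩
      by_cases k : j = j'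
      · exact Or.inl (congrArg _ k)
      · refine Or.inr fun o ho => ?_
        rw [g] at ho ⊢
        rw [← Bool.not_eq_true, c3]
        exact disjoint_left.1 (h2 _ (e j).2 _ (e j').2 fun q => k (e.injective (Subtype.ext q)))
          ((c3 _ _).1 ho)
  · rintro ⟨cs, -, h⟩ ⟨F, hF, hc⟩
    have h1 : ∀ j : Fin n, n - 1 ≤ ((univ.filter fun o : Fin m =>
        inT n (flat v) (cs.getD j []) o) ∩ F).card := fun j =>
      ((good_iff h0 v _).1 (h j).1).2.shared hF
    have h2 := sum_le_sum fun j (_ : j ∈ (univ : Finset (Fin n))) => h1 j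
    rw [← card_biUnion fun j _ j' _ k => disjoint_left.2 fun o a b => by
      have := ((h j).2 j').resolve_left (fun q => k (Fin.ext q)) o
        (mem_filter.1 (mem_inter.1 a).1).2
      rw [(mem_filter.1 (mem_inter.1 b).1).2] at this
      exact Bool.noConfusion this] at h2
    have h3 := h2.trans (card_le_card (biUnion_subset.2 fun j _ => inter_subset_right))
    simp only [sum_const, card_univ, Fintype.card_fin, smul_eq_mul] at h3
    omega

end Pool.Agent.Lib.MP_5a17c4_lc.P
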