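import Pool.Agent.Lib.MP_5a17c4_lc.P.Lab

/-!
The structure theorem: every split into `k ≥ 3` equal bins shares at least `d (k - 1)` items
exactly when there are `d` disjoint good sets.
-/

set_option autoImplicit false
set_option linter.unusedSectionVars false

namespace Pool.Agent.Lib.MP_5a17c4_lc.P

open Finset Module

variable {ι : Type} [Fintype ι] [DecidableEq ι] {E : Type} [AddCommGroup E] [Module ℝ E]
  [FiniteDimensional ℝ E] {v : ι → E} {τ : E}

/-- `ρ` is a sum of `j` bins of value `τ`, all integral outside `F`. -/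
def Split (v : ι → E) (τ : E) (j : ℕ) (ρ : ι → ℝ) (F : Finset ι) : Prop :=
  ∃ z : Fin j → ι → ℝ, (∀ l o, 0 ≤ z l o) ∧ ∑ l, z l = ρ ∧ (∀ l, L v (z l) = τ) ∧
    ∀ o, o ∉ F → ∀ l, z l o = 0 ∨ z l o = 1

theorem Split.zero (F : Finset ι) : Split v τ 0 0 F :=
  ⟨Fin.elim0, fun l => l.elim0, by simp, fun l => l.elim0, fun _ _ l => l.elim0⟩

theorem Split.cons {j : ℕ} {ρ x : ι → ℝ} {F F' : Finset ι} (h : Split v τ j ρ F)
    (h0 : ∀ o, 0 ≤ x o) (hv : L v x = τ) (hF : F ⊆ F') (hx : ∀ o, o ∉ F' → x o = 0 ∨ x o = 1) :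
    Split v τ (j + 1) (x + ρ) F' := by
  obtain ⟨z, h1, h2, h3, h4⟩ := h
  refine ⟨Fin.cons x z, fun l => Fin.cases h0 h1 l, by simp [Fin.sum_univ_succ, h2],
    fun l => Fin.cases hv h3 l, fun o ho l => Fin.cases (hx o ho) (h4 o fun k => ho (hF k)) l⟩

theorem Split.val {j : ℕ} {ρ : ι → ℝ} {F : Finset ι} (h : Split v τ j ρ F) :
    L v ρ = (j : ℝ) • τ := by
  obtain ⟨z, -, h2, h3, -⟩ := h
  simp [← h2, h3, Nat.cast_smul_eq_nsmul]

theorem box_share {ρ : ι → ℝ} (hρ : Box 1 ρ) {a : ℝ} (ha : 1 ≤ a) (hv : L v (1 - ρ) = a • τ) :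
    Box (1 - ρ) (a⁻¹ • (1 - ρ)) ∧ L v (a⁻¹ • (1 - ρ)) = τ := by
  have h0 : 0 < a := by linarith
  refine ⟨fun o => ?_, by rw [map_smul, hv, smul_smul, inv_mul_cancel₀ h0.ne', one_smul]⟩
  have := hρ o
  have h1 := inv_pos.2 h0
  have h2 := inv_le_one_of_one_le₀ ha
  simp only [Pi.sub_apply, Pi.one_apply, Pi.smul_apply, smul_eq_mul] at *
  constructor <;> nlinarith

theorem box_add {ρ y : ι → ℝ} (hρ : Box 1 ρ) (hy : Box (1 - ρ) y) : Box 1 (y + ρ) := fun o => by
  have := hρ o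
  have := hy o
  simp only [Pi.sub_apply, Pi.one_apply, Pi.add_apply] at *
  constructor <;> linarith

theorem fr_add {ρ y : ι → ℝ} (hρ : Box 1 ρ) (hy : Box (1 - ρ) y) : fr (y + ρ) ⊆ fr y ∪ fr ρ := by
  intro o ho
  by_contra k
  rw [mem_union, not_or] at k
  have := mem_fr.1 ho
  simp only [Pi.add_apply] at this
  rcases hρ.int k.2 with a | a <;> rcases (hρ.one hy).int k.1 with b | b <;>
    linarith [this.1, this.2]

theorem complete : ∀ (i j : ℕ) (ρ : ι → ℝ) (F : Finset ι), Split v τ j ρ F → Box 1 ρ → fr ρ ⊆ F →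
    L v (1 - ρ) = ((i + 1 : ℕ) : ℝ) • τ →
    ∃ F', Split v τ (j + i + 1) 1 F' ∧ F'.card ≤ F.card + finrank ℝ E * i := by
  intro i
  induction i with
  | zero =>
    intro j ρ F h hρ hF hv
    refine ⟨F, ?_, by simp⟩
    have := h.cons (x := 1 - ρ) (fun o => sub_nonneg.2 (hρ o).2) (by simpa using hv) subset_rfl
      fun o ho => by rcases hρ.int (fun k => ho (hF k)) with a | a <;> simp [a]
    simpa using this
  | succ i ih =>
    intro j ρ F h hρ hF hv
    obtain ⟨a1, a2⟩ := box_share hρ (by exact_mod_cast Nat.le_add_left 1 _) hv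
    obtain ⟨y, b1, b2, -, b3, -⟩ := reduce v (1 - ρ) 0 _ _ rfl a1
    have b4 : ∀ o, o ∉ F ∪ cut (1 - ρ) y → (ρ o = 0 ∨ ρ o = 1) ∧ (y o = 0 ∨ y o = 1 - ρ o) :=
      fun o ho => ⟨hρ.int fun k => ho (mem_union_left _ (hF k)),
        b1.eq_of fun k => ho (mem_union_right _ k)⟩
    obtain ⟨F', c1, c2⟩ := ih (j + 1) (y + ρ) (F ∪ cut (1 - ρ) y)
      (h.cons (fun o => (b1 o).1) (b2.trans a2) subset_union_left fun o ho => by
        obtain ⟨a | a, b | b⟩ := b4 o ho <;> simp [a, b]) (box_add hρ b1) (fun o ho => by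
        by_contra k
        refine not_fr ?_ ho
        obtain ⟨a | a, b | b⟩ := b4 o k <;> simp [a, b]) (by
        rw [add_comm y, ← sub_sub, map_sub, hv, b2, a2]
        push_cast
        module)
    refine ⟨F', by rwa [show j + (i + 1) + 1 = j + 1 + i + 1 by ring], ?_⟩
    have := card_union_le F (cut (1 - ρ) y)
    have := b3.card_le
    rw [mul_add]
    omega

/-- Every split into `k` equal bins shares at least `d (k - 1)` items. -/
structure Rigid (v : ι → E) (τ : E) (k : ℕ) : Prop where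
  sum : L v 1 = (k : ℝ) • τ
  many : ∀ F, Split v τ k 1 F → finrank ℝ E * (k - 1) ≤ F.card

theorem Lab.card_pos {T : Finset ι} {n : ℕ} {x : ι → ℝ} (hx : Box 1 x) (h : Lab v τ T n x)
    [DecidablePred fun q => 0 < x q] : (T.filter fun q => 0 < x q).card = n + 1 := by
  classical
  obtain ⟨s, hs, h1, h2⟩ := h
  have h3 := mem_fr.1 hs
  rw [← h2, ← card_insert_of_notMem (a := s) (by simp [h3.2.ne])]
  congr 1
  ext q
  simp only [mem_filter, mem_insert]
  constructor
  · rintro ⟨a, b⟩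
    exact ((h1 q).1 a).imp_right fun k => ⟨a, (hx.int k.out).resolve_left b.ne'⟩
  · rintro (rfl | ⟨a, b⟩)
    · exact ⟨(h1 _).2 (Or.inl rfl), h3.1⟩
    · exact ⟨a, by rw [b]; exact one_pos⟩

namespace Rigid

variable {k : ℕ} (r : Rigid v τ k)
include r

theorem rest {j i : ℕ} {ρ : ι → ℝ} {F : Finset ι} (h : Split v τ j ρ F) (hk : k = j + i) :
    L v (1 - ρ) = (i : ℝ) • τ := by
  rw [map_sub, r.sum, h.val, hk]
  push_cast
  module

theorem H {j : ℕ} {ρ : ι → ℝ} {F : Finset ι} (h : Split v τ j ρ F) (hρ : Box 1 ρ) (hF : fr ρ ⊆ F)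
    (hj : j + 1 ≤ k) : finrank ℝ E * j ≤ F.card := by
  obtain ⟨i, hi⟩ := Nat.exists_eq_add_of_le hj
  obtain ⟨F', h1, h2⟩ := complete i j ρ F h hρ hF (r.rest h (by omega))
  have h3 := r.many F' (by rwa [show k = j + i + 1 by omega])
  rw [show k - 1 = j + i by omega, mul_add] at h3
  omega

theorem hs {j : ℕ} {ρ : ι → ℝ} (h : Split v τ j ρ (fr ρ)) (hρ : Box 1 ρ)
    (hc : (fr ρ).card ≤ finrank ℝ E * j) (hj : j + 2 ≤ k) (y : ι → ℝ) (h1 : Box (1 - ρ) y)
    (h2 : L v y = τ) : finrank ℝ E ≤ (fr y \ fr ρ).card := by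
  have h3 := r.H (h.cons (fun o => (h1 o).1) h2 (F' := fr y ∪ fr ρ) subset_union_right
    fun o ho => (hρ.one h1).int fun k => ho (mem_union_left _ k)) (box_add hρ h1) (fr_add hρ h1) hj
  have := card_sdiff_add_card (fr y) (fr ρ)
  rw [mul_add] at h3
  omega

theorem ctx (hk : 3 ≤ k) : Ctx v τ := by
  have h1 : ∀ x, Box 1 x → L v x = τ → Split v τ 1 x (fr x) := fun x hx hv => by
    simpa using (Split.zero (fr x)).cons (fun o => (hx o).1) hv subset_rfl fun o ho => hx.int ho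
  refine ⟨fun x y hx hv hy hv' => ?_, fun x hx hv => ?_⟩
  · have h3 := r.H ((h1 x hx hv).cons (fun o => (hy o).1) hv' (F' := fr x ∪ fr y) subset_union_left
      fun o ho => (hx.one hy).int fun k => ho (mem_union_right _ k)) (box_add hx hy) 
      (union_comm (fr y) (fr x) ▸ fr_add hx hy) hk
    omega
  · obtain ⟨i, hi⟩ := Nat.exists_eq_add_of_le hk
    have h2 : (1 : ℝ) < (i + 2 : ℕ) := by exact_mod_cast (by omega : 1 < i + 2)
    obtain ⟨a1, a2⟩ := box_share hx h2.le (r.rest (h1 x hx hv) (by omega))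
    refine ⟨_, a1, a2, fun o => ?_⟩
    have := hx o
    have h3 := inv_lt_one_of_one_lt₀ h2
    have h4 := inv_pos.2 (one_pos.trans h2)
    simp only [Pi.sub_apply, Pi.one_apply, Pi.smul_apply, smul_eq_mul] at *
    nlinarith

open Classical in
theorem star : ∀ j, j + 2 ≤ k → ∃ ρ, Box 1 ρ ∧ Split v τ j ρ (fr ρ) ∧
    (fr ρ).card ≤ finrank ℝ E * j ∧ ∀ T n, (∀ x, Vx v τ x → Lab v τ T n x) →
      (T.filter fun q => 0 < ρ q).card = j * (n + 1) := by
  intro j
  induction j with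
  | zero =>
    exact fun _ => ⟨0, fun o => by simp, Split.zero _, by simp [fr, cut], fun T n _ => by simp⟩
  | succ j ih =>
    intro hj
    obtain ⟨ρ, h1, h2, h3, h4⟩ := ih (by omega)
    obtain ⟨i, hi⟩ := Nat.exists_eq_add_of_le hj
    obtain ⟨a1, a2⟩ := box_share h1 (a := (i + 3 : ℕ)) (by exact_mod_cast (by omega : 1 ≤ i + 3))
      (r.rest h2 (by omega))
    obtain ⟨y, b1, b2, -, b3, -⟩ := reduce v (1 - ρ) 0 _ _ rfl a1
    obtain ⟨x, c1, c2, -, -⟩ := partner_of h1 (r.hs h2 h1 h3 (by omega)) b1 (b2.trans a2) b3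
    have d1 : fr (x + ρ) = fr x ∪ fr ρ := by
      ext o
      simp only [mem_union, mem_fr, Pi.add_apply]
      rcases c2 o with a | a <;> simp [a]
    refine ⟨x + ρ, fun o => ?_, d1 ▸ h2.cons (fun o => (c1.box o).1) c1.val subset_union_right
      fun o ho => c1.box.int fun k => ho (mem_union_left _ k), ?_, fun T n hT => ?_⟩
    · rcases c2 o with a | a
      · simpa [a] using c1.box o
      · simpa [a] using h1 o
    · have := card_union_le (fr x) (fr ρ)
      rw [d1, mul_add, mul_one, ← c1.card]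
      rw [← c1.card] at h3
      omega
    · rw [add_mul, one_mul, ← h4 T n hT, ← (hT x c1).card_pos c1.box, card_filter, card_filter,
        card_filter, ← sum_add_distrib]
      refine sum_congr rfl fun o _ => ?_
      rcases c2 o with a | a <;> simp [a]

theorem size (hk : 3 ≤ k) {T : Finset ι} {n : ℕ} (hT : ∀ x, Vx v τ x → Lab v τ T n x) :
    T.card + 1 = k * (n + 1) := by
  classical
  obtain ⟨j, hj⟩ := Nat.exists_eq_add_of_le (show 2 ≤ k by omega)
  obtain ⟨ρ, h1, h2, h3, h4⟩ := r.star j (by omega)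
  have h5 := r.rest h2 (i := 2) (by omega)
  obtain ⟨a1, a2⟩ := box_share h1 (by norm_num) h5
  obtain ⟨y, b1, b2, -, b3, -⟩ := reduce v (1 - ρ) 0 _ _ rfl a1
  have b4 : cut (1 - ρ) (1 - ρ - y) = cut (1 - ρ) y := by
    ext o
    simp only [mem_cut, Pi.sub_apply]
    constructor <;> rintro ⟨a, b⟩ <;> constructor <;> linarith
  have hs := r.hs h2 h1 h3 (by omega)
  obtain ⟨x, c1, c2, c3, c4⟩ := partner_of h1 hs b1 (b2.trans a2) b3
  obtain ⟨x', d1, d2, d3, d4⟩ := partner_of (y := 1 - ρ - y) h1 hs (fun o => by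
      have := b1 o
      simp only [Pi.sub_apply] at this ⊢
      constructor <;> linarith) (by
      rw [map_sub, h5, b2, a2]
      push_cast
      module) (b4 ▸ b3)
  rw [b4] at d3 d4
  obtain ⟨s, -, -, e1⟩ := hT x' d1
  have e2 : T.card = (T.filter fun q => 0 < ρ q).card + (T.filter fun q => 0 < x q).card +
      (T.filter fun q => x' q = 1).card := by
    rw [card_filter, card_filter, card_filter, ← sum_add_distrib, ← sum_add_distrib, card_eq_sum_ones]
    refine sum_congr rfl fun o _ => ?_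
    rcases (h1 o).1.eq_or_lt with a | a
    · have f1 : o ∉ fr ρ := not_fr (Or.inl a.symm)
      by_cases b : o ∈ cut (1 - ρ) y
      · simp [← a, (mem_fr.1 (c3 ▸ b)).1, (mem_fr.1 (d3 ▸ b)).2.ne]
      · rw [c4 o f1 b, d4 o f1 b]
        rcases b1.eq_of b with f | f <;> simp [f, ← a]
    · simp [a, (c2 o).resolve_left a.ne', (d2 o).resolve_left a.ne']
  rw [e2, h4 T n hT, (hT x c1).card_pos c1.box, e1, hj]
  ring

theorem main (hk : 3 ≤ k) : ∃ (S0 : Finset ι) (T : ι → Finset ι), S0.card = finrank ℝ E ∧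
    (∀ a ∈ S0, ∀ b ∈ S0, a ≠ b → Disjoint (T a) (T b)) ∧ ∀ a ∈ S0,
      ∃ (S : Finset ι) (s : ι) (μ : E →ₗ[ℝ] ℝ), Indep v S ∧ S.card = finrank ℝ E ∧ s ∈ S ∧
        s ∈ T a ∧ (∀ o ∈ S, μ (v o) = if o = s then 1 else 0) ∧ Good k v (T a) μ := by
  classical
  have c := r.ctx hk
  have h0 : Box (1 : ι → ℝ) 0 := fun o => by simp
  obtain ⟨a1, a2⟩ := box_share h0 (a := k) (by exact_mod_cast (by omega : 1 ≤ k))
    (by simpa using r.sum)
  rw [sub_zero] at a1 a2
  obtain ⟨x, b1, b2, -, b3, -⟩ := reduce v 1 0 _ _ rfl a1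
  have hx := c.vx b1 (b2.trans a2) b3.card_le
  refine ⟨fr x, fun a => univ.filter fun q => q = a ∨ Rep v τ x q a, hx.card,
    fun a ha b hb hab => disjoint_left.2 fun q h1 h2 => ?_, fun a ha => ?_⟩
  · rcases (mem_filter.1 h1).2 with rfl | h1 <;> rcases (mem_filter.1 h2).2 with rfl | h2
    exacts [hab rfl, h2.out ha, h1.out hb, hab (c.runiq hx h1 h2)]
  · have hl : Lab v τ (univ.filter fun q => q = a ∨ Rep v τ x q a) _ x :=
      ⟨a, ha, fun q => by simp, rfl⟩
    exact c.good (by omega) r.sum hx hl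
      (r.size hk fun z hz => c.conn hx hl (fun x p e x' hx h => c.lab_step hx h) hz)

end Rigid

theorem Good.shared {k : ℕ} {T F : Finset ι} {μ : E →ₗ[ℝ] ℝ} (h : Good k v T μ)
    (hs : Split v τ k 1 F) : k - 1 ≤ (T ∩ F).card := by
  classical
  have hsum := hs.val
  obtain ⟨z, h1, h2, h3, h4⟩ := hs
  obtain ⟨⟨n, hn⟩, h5⟩ := h
  have h6 : ∀ o, ∑ l, z l o = 1 := fun o => by simpa using congrFun h2 o
  have h7 : ∀ l, ((T \ F).filter fun o => z l o = 1).card + 1 ≤ n := fun l => by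
    have a0 : ∀ o, z l o ≤ 1 := fun o => h6 o ▸ single_le_sum (fun l _ => h1 l o) (mem_univ l)
    have a1 : ∑ o, (1 - k * z l o) * (μ (v o) - if o ∈ T then 1 else 0) < 1 := by
      refine lt_of_le_of_lt (sum_le_sum fun o _ => ?_) h5
      have := h1 l o
      have := a0 o
      have hk : (0 : ℝ) ≤ k := Nat.cast_nonneg k
      unfold phi
      rcases le_total 0 (μ (v o) - if o ∈ T then 1 else 0) with a | a
      · exact le_max_of_le_left (by nlinarith [mul_nonneg hk (h1 l o)])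
      · exact le_max_of_le_right (by nlinarith [mul_le_mul_of_nonneg_left (a0 o) hk])
    have a2 := map_L (v := v) μ (z l)
    have a3 := map_L (v := v) μ 1
    rw [h3] at a2
    rw [hsum, map_smul] at a3
    have a8 : ∑ o, (1 - k * z l o) * (μ (v o) - if o ∈ T then 1 else 0) =
        ∑ o, μ (v o) - ∑ o, (if o ∈ T then (1 : ℝ) else 0) - k * ∑ o, z l o * μ (v o) +
          k * ∑ o, z l o * (if o ∈ T then 1 else 0) := by
      simp only [mul_sum, ← sum_sub_distrib, ← sum_add_distrib]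
      exact sum_congr rfl fun o _ => by ring
    have a5 : ∑ o, (if o ∈ T then (1 : ℝ) else 0) = T.card := by simp
    have a4 : (((T \ F).filter fun o => z l o = 1).card : ℝ) ≤
        ∑ o, z l o * (if o ∈ T then 1 else 0) := by
      rw [card_eq_sum_ones, Nat.cast_sum]
      refine (sum_le_sum fun o ho => ?_).trans (sum_le_sum_of_subset_of_nonneg (subset_univ _)
        fun o _ _ => mul_nonneg (h1 l o) (by split_ifs <;> norm_num))
      simp only [mem_filter, mem_sdiff] at ho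
      simp [ho.2, ho.1.1]
    simp only [Pi.one_apply, one_mul, smul_eq_mul] at a3
    rw [a8, a5, ← a2, ← a3] at a1
    have a6 : (T.card : ℝ) + 1 = k * n := by exact_mod_cast hn
    have hk : (0 : ℝ) < k := by exact_mod_cast l.pos
    have : (((T \ F).filter fun o => z l o = 1).card : ℝ) < n := by
      by_contra hc
      nlinarith
    exact_mod_cast this
  have h8 : (T \ F).card ≤ ∑ l, ((T \ F).filter fun o => z l o = 1).card := by
    refine (card_le_card fun o ho => ?_).trans card_biUnion_le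
    by_contra hc
    simp only [mem_biUnion, mem_univ, mem_filter, true_and, not_exists, not_and] at hc
    have := h6 o
    rw [sum_eq_zero fun l _ => (h4 o (mem_sdiff.1 ho).2 l).resolve_right (hc l ho)] at this
    exact zero_ne_one this
  have h9 := sum_le_sum fun l (_ : l ∈ (univ : Finset (Fin k))) => h7 l
  simp only [sum_add_distrib, sum_const, card_univ, Fintype.card_fin, smul_eq_mul, mul_one] at h9
  have := card_sdiff_add_card_inter T F
  omega

end Pool.Agent.Lib.MP_5a17c4_lc.P
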